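import Mathlib
import Pool.Agent.Helper669.Forcing

set_option autoImplicit false

/-!
# The guessing model principle, centered forcing, the tree property in the extension

Definitions for MP_1b145a_lc. The forcing relation is the one of `Pool.Agent.Helper669.Forcing`: a
sentence is the set of the conditions which force it.
-/

namespace Pool.Agent.W873.Gmp

open Cardinal Ordinal FirstOrder Pool.Agent.Helper669.Forcing

/-- `H(θ)`: the sets contained in a transitive set with fewer than `θ` elements. -/
def Hset (θ : Cardinal.{0}) : Set ZFSet.{0} :=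
  {x | ∃ t : ZFSet.{0}, t.IsTransitive ∧ x ⊆ t ∧ t.card < θ}

/-- the binary relation symbol `∈` -/
inductive Sym : ℕ → Type
  | mem : Sym 2

/-- the first-order language of set theory -/
def LMem : FirstOrder.Language.{0, 0} := ⟨fun _ => Empty, Sym⟩

/-- the structure `(H(θ), ∈)` -/
instance (θ : Cardinal.{0}) : LMem.Structure (Hset θ) where
  funMap := fun f => Empty.elim f
  RelMap := fun {_} R => match R with
    | Sym.mem => fun v => (v 0).1 ∈ (v 1).1

/-- `M` is an elementary submodel of `(H(θ), ∈)`. -/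
def ElemSub (θ : Cardinal.{0}) (M : ZFSet.{0}) : Prop :=
  ∃ S : LMem.ElementarySubstructure (Hset θ), ∀ x : ZFSet.{0}, x ∈ M ↔ ∃ y ∈ S, y.1 = x

/-- `M` is `κ⁺`-guessing: for all `z ∈ M` and `d ⊆ z` such that `d ∩ a ∈ M` for all `a ∈ M` with
`|a| ≤ κ` there is `e ∈ M` with `e ∩ M = d ∩ M`. -/
def Guessing (κ : Cardinal.{0}) (M : ZFSet.{0}) : Prop :=
  ∀ z ∈ M, ∀ d : ZFSet.{0}, d ⊆ z → (∀ a ∈ M, a.card ≤ κ → d ∩ a ∈ M) →
    ∃ e ∈ M, e ∩ M = d ∩ M

/-- `C` is closed and unbounded in `𝒫_μ(H)`, the set of the subsets of `H` of size less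
than `μ`. -/
structure IsClubIn (μ : Cardinal.{0}) (H C : Set ZFSet.{0}) : Prop where
  sub : ∀ x ∈ C, (∀ y ∈ x, y ∈ H) ∧ x.card < μ
  unbounded : ∀ x : ZFSet.{0}, (∀ y ∈ x, y ∈ H) → x.card < μ → ∃ y ∈ C, x ⊆ y
  closed : ∀ D : ZFSet.{0}, D.Nonempty → (∀ x ∈ D, x ∈ C) →
    (∀ x ∈ D, ∀ y ∈ D, x ⊆ y ∨ y ⊆ x) → D.card < μ → D.sUnion ∈ C

/-- The guessing model principle for the cardinal `κ⁺⁺`: for every regular `θ ≥ κ⁺⁺`, the set of
the `κ⁺`-guessing elementary submodels `M` of `H(θ)` of size `κ⁺` with `^{<κ}M ⊆ M` is stationary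
in `𝒫_{κ⁺⁺}(H(θ))`. -/
def GMP (κ : Cardinal.{0}) : Prop :=
  ∀ θ : Cardinal.{0}, θ.IsRegular → Order.succ (Order.succ κ) ≤ θ →
    ∀ C : Set ZFSet.{0}, IsClubIn (Order.succ (Order.succ κ)) (Hset θ) C →
      ∃ M ∈ C, ElemSub θ M ∧ M.card = Order.succ κ ∧ Guessing κ M ∧
        ∀ ζ : Ordinal.{0}, ζ < κ.ord → ∀ f ∈ ZFSet.funs ζ.toZFSet M, f ∈ M

/-- `P` is `κ⁺`-centered: it is the union of `κ` directed sets. -/
def Centered (κ : Cardinal.{0}) (P : Type) [Preorder P] : Prop :=
  ∃ D : κ.ord.ToType → Set P, (∀ p, ∃ i, p ∈ D i) ∧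
    ∀ i, ∀ p ∈ D i, ∀ q ∈ D i, ∃ r ∈ D i, r ≤ p ∧ r ≤ q

section forcing

variable {P : Type} [Preorder P] {L Lam W : Type} [LinearOrder Lam]

/-- `φ or ψ` is `not (not φ and not ψ)`. -/
def for' (φ ψ : Set P) : Set P := fnot (fand (fnot φ) (fnot ψ))

/-- In the extension: `L` with the relation named by `R` is a tree, `ℓ` is its level function with
values in `Lam`, all levels are nonempty, and each level has at most `|W|` elements. (So it is a
tree of height `Lam` with levels of size at most `|W|`.) -/
def IsTree (W : Type) (R : L → L → Set P) (ℓ : L → Lam → Set P) : Set P :=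
  fand (IsFun ℓ)
  (fand (fall fun x : L => fall fun y : L => fall fun a : Lam => fall fun b : Lam =>
    fimp (fand (meets (R x y)) (fand (meets (ℓ x a)) (meets (ℓ y b)))) (fground (a < b)))
  (fand (fall fun x : L => fall fun y : L => fall fun z : L =>
    fimp (fand (meets (R x y)) (meets (R y z))) (meets (R x z)))
  (fand (fall fun y : L => fall fun b : Lam => fall fun a : Lam => fall fun _ : a < b =>
    fimp (meets (ℓ y b)) (fex fun x : L => fand (meets (R x y)) (meets (ℓ x a))))
  (fand (fall fun x : L => fall fun y : L => fall fun z : L => fall fun a : Lam =>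
    fimp (fand (fand (meets (R x z)) (meets (R y z))) (fand (meets (ℓ x a)) (meets (ℓ y a))))
      (fground (x = y)))
  (fand (fall fun a : Lam => fex fun x : L => meets (ℓ x a))
    (fall fun a : Lam => fex fun F : W → L → Set P =>
      fand (IsFun F) (fall fun x : L => fimp (meets (ℓ x a))
        (fex fun w : W => meets (F w x)))))))))

/-- In the extension: `B` is a linearly ordered subset of the tree named by `R` and `ℓ` which
meets all levels. -/
def IsCofinalBranch (R : L → L → Set P) (ℓ : L → Lam → Set P) (B : L → Set P) : Set P :=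
  fand (fall fun x : L => fall fun y : L =>
    fimp (fand (meets (B x)) (meets (B y)))
      (for' (fground (x = y)) (for' (meets (R x y)) (meets (R y x)))))
    (fall fun a : Lam => fex fun x : L => fand (meets (B x)) (meets (ℓ x a)))

/-- In the extension, every tree of height `Lam` with levels of size at most `|W|` has a cofinal
branch. (The underlying set of the tree is any set `L` of the ground model; in the extension each
set is in bijection with such a set.) -/
def TreeProp (P Lam W : Type) [Preorder P] [LinearOrder Lam] : Set P :=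
  fall fun L : Type => fall fun R : L → L → Set P => fall fun ℓ : L → Lam → Set P =>
    fimp (IsTree W R ℓ) (fex fun B : L → Set P => IsCofinalBranch R ℓ B)

end forcing

end Pool.Agent.W873.Gmp
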