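import Mathlib
import Pool.Agent.W873.Gmp.Defs

set_option autoImplicit false

/-!
# Sets closed under functions form a club
-/

namespace Pool.Agent.W873.Gmp

open Cardinal Ordinal

theorem card_eq_shrink (x : ZFSet.{0}) : x.card = #(Shrink.{0} x) := rfl

theorem card_range_le {A : Type} (f : A → ZFSet.{0}) : (ZFSet.range f).card ≤ #A := by
  rw [card_eq_shrink]
  refine mk_le_of_surjective (f := fun a => equivShrink _ ⟨f a, ZFSet.mem_range_self a⟩) ?_
  intro y
  obtain ⟨z, rfl⟩ := (equivShrink _).surjective y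
  obtain ⟨z, hz⟩ := z
  obtain ⟨a, rfl⟩ := ZFSet.mem_range.1 hz
  exact ⟨a, rfl⟩

theorem mk_le_card {A : Type} (c : A → ZFSet.{0}) (hc : Function.Injective c) (s : Set A)
    (M : ZFSet.{0}) (h : ∀ x ∈ s, c x ∈ M) : #s ≤ M.card := by
  rw [card_eq_shrink]
  refine mk_le_of_injective (f := fun a : s => equivShrink _ ⟨c a, h a a.2⟩) ?_
  intro a b hab
  have := (equivShrink _).injective hab
  simp only [Subtype.mk.injEq] at this
  exact Subtype.ext (hc this)

/-- terms for the closure under binary operations -/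
abbrev Tm (X J : Type) : Type := WType (α := X ⊕ J) (fun a => a.elim (fun _ => Empty) fun _ => Bool)

def evalTm {X J : Type} (f : X → ZFSet.{0}) (G : J → ZFSet.{0} → ZFSet.{0} → ZFSet.{0}) :
    Tm X J → ZFSet.{0}
  | WType.mk (Sum.inl x) _ => f x
  | WType.mk (Sum.inr j) t => G j (evalTm f G (t true)) (evalTm f G (t false))

theorem mk_Tm_le {X J : Type} {κ : Cardinal.{0}} (hκ : ℵ₀ ≤ κ) (hX : #X ≤ κ) (hJ : #J ≤ κ) :
    #(Tm X J) ≤ κ := by
  have : ∀ a : X ⊕ J, Finite (a.elim (fun _ => Empty) fun _ => Bool : Type) := by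
    rintro (a | a)
    · exact (inferInstance : Finite Empty)
    · exact (inferInstance : Finite Bool)
  refine (WType.cardinalMk_le_max_aleph0_of_finite).trans (max_le ?_ hκ)
  rw [mk_sum, Cardinal.lift_id, Cardinal.lift_id]
  exact add_le_of_le hκ hX hJ

theorem isClub_closed {κ : Cardinal.{0}} (hκ : ℵ₀ ≤ κ) {J : Type} (hJ : #J ≤ κ) (H : Set ZFSet.{0})
    (G : J → ZFSet.{0} → ZFSet.{0} → ZFSet.{0}) (hG : ∀ j u v, G j u v ∈ H) (B : ZFSet.{0})
    (hB : ∀ y ∈ B, y ∈ H) (hBc : B.card ≤ κ) :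
    IsClubIn (Order.succ κ) H {x | ((∀ y ∈ x, y ∈ H) ∧ x.card < Order.succ κ) ∧ B ⊆ x ∧
      ∀ j, ∀ u ∈ x, ∀ v ∈ x, G j u v ∈ x} := by
  refine ⟨fun x hx => hx.1, fun x hxH hxc => ?_, fun D hD hDC hch hDc => ?_⟩
  · let X : Type := Shrink.{0} (x ∪ B : ZFSet.{0})
    let f : X → ZFSet.{0} := fun a => ((equivShrink (x ∪ B : ZFSet.{0})).symm a).1
    have hf : ∀ a, f a ∈ (x ∪ B : ZFSet.{0}) := fun a => ((equivShrink _).symm a).2
    have hf' : ∀ y ∈ (x ∪ B : ZFSet.{0}), ∃ a, f a = y := fun y hy =>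
      ⟨equivShrink _ ⟨y, hy⟩, by simp [f]⟩
    have hX : #X ≤ κ := by
      have h1 : #X = (x ∪ B : ZFSet.{0}).card := rfl
      rw [h1]
      exact (ZFSet.card_union_le).trans (add_le_of_le hκ (Order.lt_succ_iff.1 hxc) hBc)
    have hmem : ∀ t : Tm X J, evalTm f G t ∈ H := by
      rintro ⟨x' | j, t⟩
      · have := hf x'
        rw [ZFSet.mem_union] at this
        rcases this with h | h
        · exact hxH _ h
        · exact hB _ h
      · exact hG _ _ _
    have hsub : ∀ y ∈ (x ∪ B : ZFSet.{0}), y ∈ ZFSet.range (evalTm f G) := by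
      intro y hy
      obtain ⟨a, rfl⟩ := hf' y hy
      exact ZFSet.mem_range.2 ⟨WType.mk (Sum.inl a) Empty.elim, rfl⟩
    refine ⟨ZFSet.range (evalTm f G), ⟨⟨fun y hy => ?_, ?_⟩, fun y hy => ?_, ?_⟩, fun y hy => ?_⟩
    · obtain ⟨t, rfl⟩ := ZFSet.mem_range.1 hy
      exact hmem t
    · exact Order.lt_succ_iff.2 ((card_range_le _).trans (mk_Tm_le hκ hX hJ))
    · exact hsub y (ZFSet.mem_union.2 (Or.inr hy))
    · intro j u hu v hv
      obtain ⟨s, rfl⟩ := ZFSet.mem_range.1 hu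
      obtain ⟨t, rfl⟩ := ZFSet.mem_range.1 hv
      refine ZFSet.mem_range.2 ⟨WType.mk (Sum.inr j) fun b : Bool => if b then s else t, ?_⟩
      simp [evalTm]
    · exact hsub y (ZFSet.mem_union.2 (Or.inl hy))
  · refine ⟨⟨fun y hy => ?_, ?_⟩, fun y hy => ?_, fun j u hu v hv => ?_⟩
    · obtain ⟨x, hx, hy⟩ := ZFSet.mem_sUnion.1 hy
      exact (hDC x hx).1.1 y hy
    · refine Order.lt_succ_iff.2 ?_
      let I : Type := Shrink.{0} D
      let g : I → ZFSet.{0} := fun a => ((equivShrink D).symm a).1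
      have hg : ∀ a, g a ∈ D := fun a => ((equivShrink D).symm a).2
      have h1 : #(Shrink.{0} D.sUnion) ≤ #(Σ a : I, Shrink.{0} (g a)) := by
        refine mk_le_of_surjective (f := fun p : Σ a : I, Shrink.{0} (g a) =>
          equivShrink (D.sUnion) ⟨((equivShrink (g p.1)).symm p.2).1,
            ZFSet.mem_sUnion.2 ⟨g p.1, hg p.1, ((equivShrink (g p.1)).symm p.2).2⟩⟩) ?_
        intro z
        obtain ⟨⟨z, hz⟩, rfl⟩ := (equivShrink _).surjective z
        obtain ⟨x, hx, hzx⟩ := ZFSet.mem_sUnion.1 hz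
        have hgx : g (equivShrink D ⟨x, hx⟩) = x := by simp [g]
        refine ⟨⟨equivShrink D ⟨x, hx⟩, equivShrink _ ⟨z, by rw [hgx]; exact hzx⟩⟩, ?_⟩
        simp
      rw [card_eq_shrink]
      refine h1.trans ?_
      rw [mk_sigma]
      refine (Cardinal.sum_le_sum _ (fun _ => κ) fun a => ?_).trans ?_
      · exact Order.lt_succ_iff.1 (hDC _ (hg a)).1.2
      · rw [sum_const, Cardinal.lift_id, Cardinal.lift_id]
        exact (mul_le_mul' (Order.lt_succ_iff.1 hDc) le_rfl).trans (mul_eq_self hκ).le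
    · obtain ⟨x, hx⟩ := hD
      exact ZFSet.mem_sUnion.2 ⟨x, hx, (hDC x hx).2.1 hy⟩
    · obtain ⟨x, hx, hux⟩ := ZFSet.mem_sUnion.1 hu
      obtain ⟨y, hy, hvy⟩ := ZFSet.mem_sUnion.1 hv
      rcases hch x hx y hy with h | h
      · exact ZFSet.mem_sUnion.2 ⟨y, hy, (hDC y hy).2.2 j u (h hux) v hvy⟩
      · exact ZFSet.mem_sUnion.2 ⟨x, hx, (hDC x hx).2.2 j u hux v (h hvy)⟩

end Pool.Agent.W873.Gmp
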