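import Mathlib
import Pool.Agent.W873.Gmp.Club

set_option autoImplicit false

/-!
# A typed consequence of the guessing model principle
-/

namespace Pool.Agent.W873.Gmp

open Cardinal Ordinal

abbrev Kt (κ : Cardinal.{0}) : Type := κ.ord.ToType
abbrev Wt (κ : Cardinal.{0}) : Type := (Order.succ κ).ord.ToType
abbrev Lt (κ : Cardinal.{0}) : Type := (Order.succ (Order.succ κ)).ord.ToType
abbrev Qt (κ : Cardinal.{0}) : Type := Σ ζ : Kt κ, (Set.Iio ζ → Set (Lt κ))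

/-- The traces of a guessing model on four sorts of objects. -/
structure Mdl (κ : Cardinal.{0}) where
  mL : Set (Lt κ)
  mP : Set (Set (Lt κ))
  mQ : Set (Qt κ)
  mX : Set (Set (Qt κ))
  nonempty : mL.Nonempty
  small : #mL ≤ Order.succ κ
  guess : ∀ d : Set (Lt κ), (∀ a ∈ mP, #a ≤ κ → d ∩ a ∈ mP) →
    ∃ e ∈ mP, ∀ x ∈ mL, (x ∈ e ↔ x ∈ d)
  guessQ : ∀ d : Set (Qt κ), (∀ a ∈ mX, #a ≤ κ → d ∩ a ∈ mX) →
    ∃ e ∈ mX, ∀ x ∈ mQ, (x ∈ e ↔ x ∈ d)
  cl1 : ∀ s : Set (Lt κ), #s < κ → s ⊆ mL → s ∈ mP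
  cl2 : ∀ f : Qt κ, (∀ ξ, f.2 ξ ∈ mP) → f ∈ mQ
  cl3 : ∀ s : Set (Qt κ), #s < κ → s ⊆ mQ → s ∈ mX

/-- A family of functions between the sorts. -/
structure Fns (κ : Cardinal.{0}) (J : Type) where
  LL : J → Lt κ → Lt κ
  PL : J → Set (Lt κ) → Lt κ
  PLP : J → Set (Lt κ) → Lt κ → Set (Lt κ)
  XQ : J → Set (Qt κ) → Qt κ
  XLL : J → Set (Qt κ) → Lt κ → Lt κ

structure Mdl.Closed {κ : Cardinal.{0}} (m : Mdl κ) {J : Type} (F : Fns κ J) : Prop where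
  LL : ∀ j, ∀ x ∈ m.mL, F.LL j x ∈ m.mL
  PL : ∀ j, ∀ s ∈ m.mP, F.PL j s ∈ m.mL
  PLP : ∀ j, ∀ s ∈ m.mP, ∀ x ∈ m.mL, F.PLP j s x ∈ m.mP
  XQ : ∀ j, ∀ s ∈ m.mX, F.XQ j s ∈ m.mQ
  XLL : ∀ j, ∀ s ∈ m.mX, ∀ x ∈ m.mL, F.XLL j s x ∈ m.mL

/-! ### Codes -/

/-- the code of a set of objects with codes `c` -/
noncomputable def cS {A : Type} (c : A → ZFSet.{0}) (s : Set A) : ZFSet.{0} :=
  ZFSet.range fun x : s => c x

theorem mem_cS {A : Type} {c : A → ZFSet.{0}} {s : Set A} {z : ZFSet.{0}} :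
    z ∈ cS c s ↔ ∃ x ∈ s, c x = z := by
  unfold cS
  rw [ZFSet.mem_range]
  constructor
  · rintro ⟨x, rfl⟩
    exact ⟨x, x.2, rfl⟩
  · rintro ⟨x, hx, rfl⟩
    exact ⟨⟨x, hx⟩, rfl⟩

theorem mem_cS' {A : Type} {c : A → ZFSet.{0}} (hc : Function.Injective c) {s : Set A} {x : A} :
    c x ∈ cS c s ↔ x ∈ s := by
  rw [mem_cS]
  constructor
  · rintro ⟨y, hy, h⟩
    exact hc h ▸ hy
  · exact fun h => ⟨x, h, rfl⟩

theorem cS_injective {A : Type} {c : A → ZFSet.{0}} (hc : Function.Injective c) :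
    Function.Injective (cS c) := by
  intro s t h
  ext x
  rw [← mem_cS' hc, h, mem_cS' hc]

/-- the code of an element of a well-ordered type -/
noncomputable def cO {o : Ordinal.{0}} (x : o.ToType) : ZFSet.{0} :=
  (typein (α := o.ToType) (· < ·) x).toZFSet

theorem cO_injective {o : Ordinal.{0}} : Function.Injective (cO (o := o)) := by
  intro x y h
  exact (typein_inj _).1 (toZFSet_injective h)

theorem mem_cO {o : Ordinal.{0}} {x : o.ToType} {z : ZFSet.{0}} :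
    z ∈ (typein (α := o.ToType) (· < ·) x).toZFSet ↔ ∃ y < x, cO y = z := by
  rw [mem_toZFSet_iff]
  constructor
  · rintro ⟨a, ha, rfl⟩
    have ha' : a < type (fun x y : o.ToType => x < y) := ha.trans (typein_lt_type _ x)
    refine ⟨enum (α := o.ToType) (· < ·) ⟨a, ha'⟩, ?_, ?_⟩
    · rw [← typein_lt_typein (α := o.ToType) (· < ·), typein_enum]
      exact ha
    · unfold cO
      rw [typein_enum]
  · rintro ⟨y, hy, rfl⟩
    exact ⟨_, (typein_lt_typein _).2 hy, rfl⟩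

noncomputable def cL (κ : Cardinal.{0}) : Lt κ → ZFSet.{0} := cO

/-- the code of a sequence of sets -/
noncomputable def cQ (κ : Cardinal.{0}) (f : Qt κ) : ZFSet.{0} :=
  ZFSet.range fun ξ : Set.Iio f.1 => ZFSet.pair (cO ξ.1) (cS (cL κ) (f.2 ξ))

theorem mem_cQ {κ : Cardinal.{0}} {f : Qt κ} {z : ZFSet.{0}} :
    z ∈ cQ κ f ↔ ∃ ξ : Set.Iio f.1, ZFSet.pair (cO ξ.1) (cS (cL κ) (f.2 ξ)) = z := by
  unfold cQ
  rw [ZFSet.mem_range]

theorem cL_injective (κ : Cardinal.{0}) : Function.Injective (cL κ) := cO_injective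

theorem cQ_injective (κ : Cardinal.{0}) : Function.Injective (cQ κ) := by
  have key : ∀ f g : Qt κ, cQ κ f = cQ κ g → ∀ ξ : Set.Iio f.1, ∃ h : ξ.1 < g.1,
      f.2 ξ = g.2 ⟨ξ.1, h⟩ := by
    intro f g h ξ
    have h1 : ZFSet.pair (cO ξ.1) (cS (cL κ) (f.2 ξ)) ∈ cQ κ g := by
      rw [← h]
      exact mem_cQ.2 ⟨ξ, rfl⟩
    obtain ⟨η, hη⟩ := mem_cQ.1 h1
    rw [ZFSet.pair_inj] at hη
    have h2 : η.1 = ξ.1 := cO_injective hη.1
    refine ⟨h2 ▸ η.2, ?_⟩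
    have h3 : g.2 η = f.2 ξ := cS_injective (cL_injective κ) hη.2
    have h4 : η = ⟨ξ.1, h2 ▸ η.2⟩ := Subtype.ext h2
    rw [← h3]
    exact congrArg g.2 h4
  rintro ⟨a, f⟩ ⟨b, g⟩ h
  have h1 : a ≤ b := by
    by_contra hcon
    obtain ⟨h2, _⟩ := key _ _ h ⟨b, not_le.1 hcon⟩
    exact lt_irrefl _ h2
  have h2 : b ≤ a := by
    by_contra hcon
    obtain ⟨h2, _⟩ := key _ _ h.symm ⟨a, not_le.1 hcon⟩
    exact lt_irrefl _ h2
  obtain rfl := le_antisymm h1 h2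
  congr 1
  funext ξ
  obtain ⟨_, h3⟩ := key _ _ h ξ
  exact h3

theorem exists_vonNeumann {A : Type} (c : A → ZFSet.{0}) : ∃ o : Ordinal.{0}, ∀ x, c x ∈ ZFSet.vonNeumann o := by
  refine ⟨Order.succ (⨆ x, (c x).rank), fun x => ?_⟩
  rw [ZFSet.mem_vonNeumann]
  exact Order.lt_succ_iff.2 (Ordinal.le_iSup (fun x => (c x).rank) x)

open Classical in
/-- transfer of a binary function to codes -/
noncomputable def lift2 {A B C : Type} (cA : A → ZFSet.{0}) (cB : B → ZFSet.{0})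
    (cC : C → ZFSet.{0}) (F : A → B → C) : ZFSet.{0} → ZFSet.{0} → ZFSet.{0} := fun u v =>
  if h : ∃ ab : A × B, cA ab.1 = u ∧ cB ab.2 = v then cC (F h.choose.1 h.choose.2) else ∅

theorem lift2_eq {A B C : Type} {cA : A → ZFSet.{0}} {cB : B → ZFSet.{0}}
    (cC : C → ZFSet.{0}) (F : A → B → C) (hA : Function.Injective cA) (hB : Function.Injective cB)
    (a : A) (b : B) : lift2 cA cB cC F (cA a) (cB b) = cC (F a b) := by
  have h : ∃ ab : A × B, cA ab.1 = cA a ∧ cB ab.2 = cB b := ⟨(a, b), rfl, rfl⟩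
  unfold lift2
  rw [dif_pos h, hA h.choose_spec.1, hB h.choose_spec.2]

theorem lift2_mem {A B C : Type} (cA : A → ZFSet.{0}) (cB : B → ZFSet.{0})
    {cC : C → ZFSet.{0}} (F : A → B → C) {T : ZFSet.{0}} (hT : ∅ ∈ T) (hC : ∀ x, cC x ∈ T)
    (u v : ZFSet.{0}) : lift2 cA cB cC F u v ∈ T := by
  unfold lift2
  split_ifs
  · exact hC _
  · exact hT

/-- the range of a function -/
noncomputable def ran (x : ZFSet.{0}) : ZFSet.{0} :=
  ZFSet.sep (fun y => ∃ z, ZFSet.pair z y ∈ x) x.sUnion.sUnion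

theorem mem_ran {x y : ZFSet.{0}} : y ∈ ran x ↔ ∃ z, ZFSet.pair z y ∈ x := by
  unfold ran
  rw [ZFSet.mem_sep]
  refine ⟨fun h => h.2, fun h => ⟨?_, h⟩⟩
  obtain ⟨z, hz⟩ := h
  refine ZFSet.mem_sUnion.2 ⟨{z, y}, ZFSet.mem_sUnion.2 ⟨_, hz, ?_⟩, by simp⟩
  simp [ZFSet.pair]

/-- typed guessing -/
theorem guess_typed {κ : Cardinal.{0}} {M : ZFSet.{0}} (hM : Guessing κ M) {A : Type}
    {c : A → ZFSet.{0}} (hc : Function.Injective c) (hz : cS c Set.univ ∈ M)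
    (hcl : ∀ a ∈ M, a ∩ cS c Set.univ ∈ M) (d : Set A)
    (h : ∀ a : Set A, cS c a ∈ M → #a ≤ κ → cS c (d ∩ a) ∈ M) :
    ∃ e : Set A, cS c e ∈ M ∧ ∀ x, c x ∈ M → (x ∈ e ↔ x ∈ d) := by
  have hkey : ∀ a : ZFSet.{0}, a ∩ cS c Set.univ = cS c {x | c x ∈ a} := by
    intro a
    ext z
    rw [ZFSet.mem_inter, mem_cS, mem_cS]
    constructor
    · rintro ⟨h1, x, _, rfl⟩
      exact ⟨x, h1, rfl⟩
    · rintro ⟨x, hx, rfl⟩
      exact ⟨hx, x, trivial, rfl⟩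
  obtain ⟨e, he, heq⟩ := hM _ hz (cS c d) (by
    intro z hz
    obtain ⟨x, _, rfl⟩ := mem_cS.1 hz
    exact mem_cS.2 ⟨x, trivial, rfl⟩) (by
    intro a ha hac
    have h1 : cS c {x | c x ∈ a} ∈ M := by
      rw [← hkey]
      exact hcl a ha
    have h2 : #{x | c x ∈ a} ≤ κ := (mk_le_card c hc _ a fun x hx => hx).trans hac
    have h3 : cS c d ∩ a = cS c (d ∩ {x | c x ∈ a}) := by
      ext z
      rw [ZFSet.mem_inter, mem_cS, mem_cS]
      constructor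
      · rintro ⟨⟨x, hx, rfl⟩, h⟩
        exact ⟨x, ⟨hx, h⟩, rfl⟩
      · rintro ⟨x, ⟨hx, h⟩, rfl⟩
        exact ⟨⟨x, hx, rfl⟩, h⟩
    rw [h3]
    exact h _ h1 h2)
  refine ⟨{x | c x ∈ e}, by rw [← hkey]; exact hcl e he, fun x hx => ?_⟩
  have h1 : c x ∈ e ∩ M ↔ c x ∈ cS c d ∩ M := by rw [heq]
  rw [ZFSet.mem_inter, ZFSet.mem_inter, mem_cS' hc] at h1
  constructor
  · exact fun h => (h1.1 ⟨h, hx⟩).1
  · exact fun h => (h1.2 ⟨h, hx⟩).1

/-- small subsets of `M` are elements of `M` -/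
theorem small_mem {κ : Cardinal.{0}} {M : ZFSet.{0}}
    (hseq : ∀ ζ : Ordinal.{0}, ζ < κ.ord → ∀ f ∈ ZFSet.funs ζ.toZFSet M, f ∈ M) {A : Type}
    {c : A → ZFSet.{0}} (hran : ∀ x ∈ M, ∀ s : Set A, ran x = cS c s → ran x ∈ M)
    (s : Set A) (hs : #s < κ) (hsM : ∀ x ∈ s, c x ∈ M) : cS c s ∈ M := by
  have h0 : #s = #(#s).ord.ToType := by rw [mk_toType, card_ord]
  obtain ⟨e⟩ := Cardinal.eq.1 h0
  let F : ZFSet.{0} := ZFSet.range fun i : (#s).ord.ToType => ZFSet.pair (cO i) (c (e.symm i))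
  have hF : ∀ z, z ∈ F ↔ ∃ i : (#s).ord.ToType, ZFSet.pair (cO i) (c (e.symm i)) = z := fun z =>
    ZFSet.mem_range
  have hto : ∀ z, z ∈ ((#s).ord).toZFSet ↔ ∃ i : (#s).ord.ToType, cO i = z := by
    intro z
    rw [mem_toZFSet_iff]
    constructor
    · rintro ⟨a, ha, rfl⟩
      have ha' : a < type (fun x y : (#s).ord.ToType => x < y) := by
        rw [type_toType]
        exact ha
      refine ⟨enum (α := (#s).ord.ToType) (· < ·) ⟨a, ha'⟩, ?_⟩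
      unfold cO
      rw [typein_enum]
    · rintro ⟨i, rfl⟩
      exact ⟨_, typein_lt_self i, rfl⟩
  have h1 : F ∈ ZFSet.funs ((#s).ord).toZFSet M := by
    rw [ZFSet.mem_funs]
    refine ⟨fun z hz => ?_, fun z hz => ?_⟩
    · obtain ⟨i, rfl⟩ := (hF z).1 hz
      rw [ZFSet.pair_mem_prod]
      exact ⟨(hto _).2 ⟨i, rfl⟩, hsM _ (e.symm i).2⟩
    · obtain ⟨i, rfl⟩ := (hto z).1 hz
      refine ⟨c (e.symm i), (hF _).2 ⟨i, rfl⟩, fun w hw => ?_⟩
      obtain ⟨j, hj⟩ := (hF _).1 hw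
      rw [ZFSet.pair_inj] at hj
      have : j = i := cO_injective hj.1
      subst this
      exact hj.2.symm
  have h2 : F ∈ M := hseq _ (ord_lt_ord.2 hs) F h1
  have h3 : ran F = cS c s := by
    ext z
    rw [mem_ran, mem_cS]
    constructor
    · rintro ⟨w, hw⟩
      obtain ⟨j, hj⟩ := (hF _).1 hw
      rw [ZFSet.pair_inj] at hj
      exact ⟨_, (e.symm j).2, hj.2⟩
    · rintro ⟨x, hx, rfl⟩
      refine ⟨cO (e ⟨x, hx⟩), (hF _).2 ⟨e ⟨x, hx⟩, by simp⟩⟩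
  rw [← h3]
  exact hran F h2 s h3

open Classical in
/-- the closure functions -/
noncomputable def Gfun {κ : Cardinal.{0}} {J : Type} (F : Fns κ J) (T : ZFSet.{0}) :
    (J ⊕ J ⊕ J ⊕ J ⊕ J ⊕ Fin 3) → ZFSet.{0} → ZFSet.{0} → ZFSet.{0}
  | Sum.inl j => lift2 (cL κ) (cL κ) (cL κ) fun x _ => F.LL j x
  | Sum.inr (Sum.inl j) => lift2 (cS (cL κ)) (cS (cL κ)) (cL κ) fun s _ => F.PL j s
  | Sum.inr (Sum.inr (Sum.inl j)) => lift2 (cS (cL κ)) (cL κ) (cS (cL κ)) (F.PLP j)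
  | Sum.inr (Sum.inr (Sum.inr (Sum.inl j))) =>
      lift2 (cS (cQ κ)) (cS (cQ κ)) (cQ κ) fun s _ => F.XQ j s
  | Sum.inr (Sum.inr (Sum.inr (Sum.inr (Sum.inl j)))) =>
      lift2 (cS (cQ κ)) (cL κ) (cL κ) (F.XLL j)
  | Sum.inr (Sum.inr (Sum.inr (Sum.inr (Sum.inr i)))) => fun u _ =>
      if i = 0 then (if ran u ∈ T then ran u else ∅)
      else if i = 1 then u ∩ cS (cL κ) Set.univ
      else u ∩ cS (cQ κ) Set.univ

theorem exists_model {κ : Cardinal.{0}} (hκ : ℵ₀ ≤ κ) (hG : GMP κ) {J : Type}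
    (hJ : #J ≤ Order.succ κ) (F : Fns κ J) : ∃ m : Mdl κ, m.Closed F := by
  classical
  have hκ1 : ℵ₀ ≤ Order.succ κ := hκ.trans (Order.le_succ κ)
  have hκ2 : ℵ₀ ≤ Order.succ (Order.succ κ) := hκ1.trans (Order.le_succ _)
  have hinL := cL_injective κ
  have hinQ := cQ_injective κ
  have hinP := cS_injective hinL
  have hinX := cS_injective hinQ
  obtain ⟨o1, ho1⟩ := exists_vonNeumann (cL κ)
  obtain ⟨o2, ho2⟩ := exists_vonNeumann (cS (cL κ))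
  obtain ⟨o3, ho3⟩ := exists_vonNeumann (cQ κ)
  obtain ⟨o4, ho4⟩ := exists_vonNeumann (cS (cQ κ))
  let o := max (max o1 o2) (max o3 o4)
  let T : ZFSet.{0} := ZFSet.vonNeumann o
  have hT1 : ∀ x, cL κ x ∈ T := fun x =>
    ZFSet.vonNeumann_subset_of_le ((le_max_left _ _).trans (le_max_left _ _)) (ho1 x)
  have hT2 : ∀ x, cS (cL κ) x ∈ T := fun x =>
    ZFSet.vonNeumann_subset_of_le ((le_max_right _ _).trans (le_max_left _ _)) (ho2 x)
  have hT3 : ∀ x, cQ κ x ∈ T := fun x =>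
    ZFSet.vonNeumann_subset_of_le ((le_max_left _ _).trans (le_max_right _ _)) (ho3 x)
  have hT4 : ∀ x, cS (cQ κ) x ∈ T := fun x =>
    ZFSet.vonNeumann_subset_of_le ((le_max_right _ _).trans (le_max_right _ _)) (ho4 x)
  have hT0 : ∅ ∈ T := by
    have := hT2 ∅
    have h2 : cS (cL κ) ∅ = ∅ := by
      ext z
      rw [mem_cS]
      simp
    rwa [h2] at this
  have hTsub : ∀ x y : ZFSet.{0}, x ⊆ y → y ∈ T → x ∈ T := fun x y h hy =>
    ZFSet.mem_vonNeumann_of_subset h hy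
  let θ : Cardinal.{0} := Order.succ (max T.card (Order.succ (Order.succ κ)))
  have hθ : θ.IsRegular := isRegular_succ (hκ2.trans (le_max_right _ _))
  have hθ2 : Order.succ (Order.succ κ) ≤ θ := (le_max_right _ _).trans (Order.le_succ _)
  let H' : Set ZFSet.{0} := Hset θ
  have hTH : ∀ x ∈ T, x ∈ Hset θ := fun x hx =>
    ⟨T, ZFSet.isTransitive_vonNeumann o, (ZFSet.isTransitive_vonNeumann o) x hx,
      Order.lt_succ_iff.2 (le_max_left _ _)⟩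
  obtain ⟨x0⟩ : Nonempty (Lt κ) := by
    rw [← mk_ne_zero_iff, mk_toType, card_ord]
    exact (aleph0_pos.trans_le hκ2).ne'
  -- the functions with values in `H(θ)`
  let G : (J ⊕ J ⊕ J ⊕ J ⊕ J ⊕ Fin 3) → ZFSet.{0} → ZFSet.{0} → ZFSet.{0} := Gfun F T
  have hGT : ∀ j u v, G j u v ∈ Hset θ := by
    intro j u v
    refine hTH _ ?_
    rcases j with j | j | j | j | j | i
    · change lift2 (cL κ) (cL κ) (cL κ) (fun x _ => F.LL j x) u v ∈ T
      exact lift2_mem _ _ _ hT0 hT1 u v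
    · change lift2 (cS (cL κ)) (cS (cL κ)) (cL κ) (fun s _ => F.PL j s) u v ∈ T
      exact lift2_mem _ _ _ hT0 hT1 u v
    · change lift2 (cS (cL κ)) (cL κ) (cS (cL κ)) (F.PLP j) u v ∈ T
      exact lift2_mem _ _ _ hT0 hT2 u v
    · change lift2 (cS (cQ κ)) (cS (cQ κ)) (cQ κ) (fun s _ => F.XQ j s) u v ∈ T
      exact lift2_mem _ _ _ hT0 hT3 u v
    · change lift2 (cS (cQ κ)) (cL κ) (cL κ) (F.XLL j) u v ∈ T
      exact lift2_mem _ _ _ hT0 hT1 u v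
    · change (if i = 0 then (if ran u ∈ T then ran u else ∅)
        else if i = 1 then u ∩ cS (cL κ) Set.univ else u ∩ cS (cQ κ) Set.univ) ∈ T
      split_ifs with h1 h2 h3
      · exact h2
      · exact hT0
      · exact hTsub _ _ (fun z hz => (ZFSet.mem_inter.1 hz).2) (hT2 Set.univ)
      · exact hTsub _ _ (fun z hz => (ZFSet.mem_inter.1 hz).2) (hT4 Set.univ)
  have hJ' : #(J ⊕ J ⊕ J ⊕ J ⊕ J ⊕ Fin 3) ≤ Order.succ κ := by
    simp only [mk_sum, Cardinal.lift_id]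
    refine add_le_of_le hκ1 hJ (add_le_of_le hκ1 hJ (add_le_of_le hκ1 hJ (add_le_of_le hκ1 hJ
      (add_le_of_le hκ1 hJ ?_))))
    exact (mk_le_aleph0 (α := Fin 3)).trans hκ1
  let B : ZFSet.{0} := {cL κ x0, cS (cL κ) Set.univ, cS (cQ κ) Set.univ}
  have hB : ∀ y ∈ B, y ∈ Hset θ := by
    intro y hy
    simp only [B, ZFSet.mem_insert_iff, ZFSet.mem_singleton] at hy
    rcases hy with rfl | rfl | rfl
    · exact hTH _ (hT1 _)
    · exact hTH _ (hT2 _)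
    · exact hTH _ (hT4 _)
  have hBc : B.card ≤ Order.succ κ := by
    have h1 : B.card ≤ 1 + 1 + 1 := by
      refine (ZFSet.card_insert_le).trans (add_le_add ?_ le_rfl)
      refine (ZFSet.card_insert_le).trans (add_le_add ?_ le_rfl)
      exact (ZFSet.card_singleton).le
    refine h1.trans ((le_of_lt ?_).trans hκ1)
    have : (1 + 1 + 1 : Cardinal.{0}) = (3 : ℕ) := by norm_num
    rw [this]
    exact natCast_lt_aleph0
  obtain ⟨M, hMC, _, hMc, hMg, hMs⟩ := hG θ hθ hθ2 _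
    (isClub_closed hκ1 hJ' (Hset θ) G hGT B hB hBc)
  obtain ⟨⟨hMH, _⟩, hBM, hcl⟩ := hMC
  have hzL : cS (cL κ) Set.univ ∈ M := hBM (by simp [B])
  have hzQ : cS (cQ κ) Set.univ ∈ M := hBM (by simp [B])
  have hx0 : cL κ x0 ∈ M := hBM (by simp [B])
  have hranM : ∀ x ∈ M, ran x ∈ T → ran x ∈ M := by
    intro x hx h
    have := hcl (Sum.inr (Sum.inr (Sum.inr (Sum.inr (Sum.inr 0))))) x hx x hx
    change (if (0 : Fin 3) = 0 then (if ran x ∈ T then ran x else ∅)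
        else if (0 : Fin 3) = 1 then x ∩ cS (cL κ) Set.univ else x ∩ cS (cQ κ) Set.univ) ∈ M at this
    rw [if_pos rfl, if_pos h] at this
    exact this
  have hinterL : ∀ a ∈ M, a ∩ cS (cL κ) Set.univ ∈ M := by
    intro x hx
    have := hcl (Sum.inr (Sum.inr (Sum.inr (Sum.inr (Sum.inr 1))))) x hx x hx
    change (if (1 : Fin 3) = 0 then (if ran x ∈ T then ran x else ∅)
        else if (1 : Fin 3) = 1 then x ∩ cS (cL κ) Set.univ else x ∩ cS (cQ κ) Set.univ) ∈ M at this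
    rw [if_neg (by decide), if_pos rfl] at this
    exact this
  have hinterQ : ∀ a ∈ M, a ∩ cS (cQ κ) Set.univ ∈ M := by
    intro x hx
    have := hcl (Sum.inr (Sum.inr (Sum.inr (Sum.inr (Sum.inr 2))))) x hx x hx
    change (if (2 : Fin 3) = 0 then (if ran x ∈ T then ran x else ∅)
        else if (2 : Fin 3) = 1 then x ∩ cS (cL κ) Set.univ else x ∩ cS (cQ κ) Set.univ) ∈ M at this
    rw [if_neg (by decide), if_neg (by decide)] at this
    exact this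
  let m : Mdl κ :=
    { mL := {x | cL κ x ∈ M}
      mP := {s | cS (cL κ) s ∈ M}
      mQ := {f | cQ κ f ∈ M}
      mX := {s | cS (cQ κ) s ∈ M}
      nonempty := ⟨x0, hx0⟩
      small := (mk_le_card (cL κ) hinL _ M fun x hx => hx).trans hMc.le
      guess := fun d h => guess_typed hMg hinL hzL hinterL d h
      guessQ := fun d h => guess_typed hMg hinQ hzQ hinterQ d h
      cl1 := fun s hs hsM => small_mem hMs (fun x hx s hs => hranM x hx (hs ▸ hT2 s)) s hs hsM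
      cl2 := ?_
      cl3 := fun s hs hsM => small_mem hMs (fun x hx s hs => hranM x hx (hs ▸ hT4 s)) s hs hsM }
  · refine ⟨m, ⟨fun j x hx => ?_, fun j s hs => ?_, fun j s hs x hx => ?_, fun j s hs => ?_,
      fun j s hs x hx => ?_⟩⟩
    · have hx' : cL κ x ∈ M := hx
      have := hcl (Sum.inl j) _ hx' _ hx'
      change lift2 (cL κ) (cL κ) (cL κ) (fun x _ => F.LL j x) _ _ ∈ M at this
      rwa [lift2_eq _ _ hinL hinL] at this
    · have hs' : cS (cL κ) s ∈ M := hs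
      have := hcl (Sum.inr (Sum.inl j)) _ hs' _ hs'
      change lift2 (cS (cL κ)) (cS (cL κ)) (cL κ) (fun s _ => F.PL j s) _ _ ∈ M at this
      rwa [lift2_eq _ _ hinP hinP] at this
    · have hs' : cS (cL κ) s ∈ M := hs
      have hx' : cL κ x ∈ M := hx
      have := hcl (Sum.inr (Sum.inr (Sum.inl j))) _ hs' _ hx'
      change lift2 (cS (cL κ)) (cL κ) (cS (cL κ)) (F.PLP j) _ _ ∈ M at this
      rwa [lift2_eq _ _ hinP hinL] at this
    · have hs' : cS (cQ κ) s ∈ M := hs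
      have := hcl (Sum.inr (Sum.inr (Sum.inr (Sum.inl j)))) _ hs' _ hs'
      change lift2 (cS (cQ κ)) (cS (cQ κ)) (cQ κ) (fun s _ => F.XQ j s) _ _ ∈ M at this
      rwa [lift2_eq _ _ hinX hinX] at this
    · have hs' : cS (cQ κ) s ∈ M := hs
      have hx' : cL κ x ∈ M := hx
      have := hcl (Sum.inr (Sum.inr (Sum.inr (Sum.inr (Sum.inl j))))) _ hs' _ hx'
      change lift2 (cS (cQ κ)) (cL κ) (cL κ) (F.XLL j) _ _ ∈ M at this
      rwa [lift2_eq _ _ hinX hinL] at this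
  · intro f hf
    refine hMs (typein (α := Kt κ) (· < ·) f.1) (typein_lt_self _) (cQ κ f) ?_
    rw [ZFSet.mem_funs]
    refine ⟨fun z hz => ?_, fun z hz => ?_⟩
    · obtain ⟨ξ, rfl⟩ := mem_cQ.1 hz
      rw [ZFSet.pair_mem_prod]
      exact ⟨mem_cO.2 ⟨ξ.1, ξ.2, rfl⟩, hf ξ⟩
    · obtain ⟨ξ, hξ, rfl⟩ := mem_cO.1 hz
      refine ⟨cS (cL κ) (f.2 ⟨ξ, hξ⟩), mem_cQ.2 ⟨⟨ξ, hξ⟩, rfl⟩, fun w hw => ?_⟩
      obtain ⟨η, hη⟩ := mem_cQ.1 hw
      rw [ZFSet.pair_inj] at hη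
      have h1 : η = ⟨ξ, hξ⟩ := Subtype.ext (cO_injective hη.1)
      subst h1
      exact hη.2.symm

end Pool.Agent.W873.Gmp
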