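import Mathlib
import Pool.Agent.W873.Gmp.Typed

set_option autoImplicit false

/-!
# The combinatorial part: branches through directed pieces of the tree, guessed by a model
-/

namespace Pool.Agent.W873.Gmp

open Cardinal Ordinal

variable {κ : Cardinal.{0}}

theorem bdd_of_small (hκ : ℵ₀ ≤ κ) (S : Set (Lt κ)) (hS : #S ≤ Order.succ κ) :
    ∃ β : Lt κ, ∀ x ∈ S, x < β := by
  by_contra hcon
  push Not at hcon
  have h1 : IsCofinal S := fun β => by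
    obtain ⟨x, hx, h⟩ := hcon β
    exact ⟨x, hx, h⟩
  have h2 := Order.cof_le h1
  rw [cof_toType, (isRegular_succ (hκ.trans (Order.le_succ κ))).cof_ord] at h2
  exact absurd (h2.trans hS) (not_le.2 (Order.lt_succ _))

theorem mk_Iio_L (x : Lt κ) : #(Set.Iio x) ≤ Order.succ κ := by
  have h := mk_Iio_lt x (by simp)
  rw [mk_ord_toType] at h
  exact Order.lt_succ_iff.1 h

theorem mk_Iio_K (x : Kt κ) : #(Set.Iio x) < κ := by
  have h := mk_Iio_lt x (by simp)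
  rwa [mk_ord_toType] at h

theorem exists_gt_K (hκ : ℵ₀ ≤ κ) (x : Kt κ) : ∃ y, x < y :=
  (Cardinal.noMaxOrder hκ).exists_gt x

/-- a chain at `ν` -/
def NotChain (lev : Lt κ → Lt κ) (lt : Kt κ → Lt κ → Lt κ → Prop) (ν : Kt κ) (s : Set (Lt κ))
    (x y : Lt κ) : Prop := x ∈ s ∧ y ∈ s ∧ lev x < lev y ∧ ¬ lt ν x y

def NotDown (lt : Kt κ → Lt κ → Lt κ → Prop) (ν : Kt κ) (s : Set (Lt κ))
    (x y : Lt κ) : Prop := x ∈ s ∧ lt ν y x ∧ y ∉ s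

open Classical in
/-- the functions under which the models are closed -/
noncomputable def fam [Nonempty (Lt κ)] (π : Lt κ ≃ Lt κ × Wt κ)
    (lt : Kt κ → Lt κ → Lt κ → Prop) (h : Lt κ → Wt κ → Lt κ) (ρ : Wt κ → Kt κ)
    (E : Set (Qt κ) → Wt κ → Qt κ) (γ : Set (Qt κ) → Lt κ → Lt κ) : Fns κ (ℕ × Wt κ) where
  LL j x := match j.1 with
    | 0 => h x j.2
    | 1 => π.symm (x, j.2)
    | _ => (π x).1
  PL j s := match j.1 with
    | 0 => Classical.epsilon fun β => ∀ x ∈ s, x < β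
    | 1 => Classical.epsilon fun β => ∀ x ∈ s, (π x).1 < β
    | 2 => Classical.epsilon fun β => ¬ #{y | y ∈ s ∧ y < β} < κ
    | 3 => (Classical.epsilon fun q : Lt κ × Lt κ =>
        NotChain (fun x => (π x).1) lt (ρ j.2) s q.1 q.2).1
    | 4 => (Classical.epsilon fun q : Lt κ × Lt κ =>
        NotChain (fun x => (π x).1) lt (ρ j.2) s q.1 q.2).2
    | 5 => (Classical.epsilon fun q : Lt κ × Lt κ => NotDown lt (ρ j.2) s q.1 q.2).1
    | _ => (Classical.epsilon fun q : Lt κ × Lt κ => NotDown lt (ρ j.2) s q.1 q.2).2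
  PLP j s y := {x | x ∈ s ∧ lt (ρ j.2) x y}
  XQ j s := E s j.2
  XLL _ s η := γ s η

theorem exists_mdl (hκ : ℵ₀ ≤ κ) (hG : GMP κ) (π : Lt κ ≃ Lt κ × Wt κ)
    (lt : Kt κ → Lt κ → Lt κ → Prop) (γ : Set (Qt κ) → Lt κ → Lt κ) : ∃ m : Mdl κ,
    (∀ x ∈ m.mL, ∀ y < x, y ∈ m.mL) ∧
    (∀ α ∈ m.mL, ∀ i, π.symm (α, i) ∈ m.mL) ∧
    (∀ x ∈ m.mL, (π x).1 ∈ m.mL) ∧
    (∀ s ∈ m.mP, (∃ β, ∀ x ∈ s, x < β) → ∃ β ∈ m.mL, ∀ x ∈ s, x < β) ∧
    (∀ s ∈ m.mP, (∃ β, ∀ x ∈ s, (π x).1 < β) → ∃ β ∈ m.mL, ∀ x ∈ s, (π x).1 < β) ∧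
    (∀ s ∈ m.mP, (∃ β, ¬ #{y | y ∈ s ∧ y < β} < κ) → ∃ β ∈ m.mL, ¬ #{y | y ∈ s ∧ y < β} < κ) ∧
    (∀ ν, ∀ s ∈ m.mP, (∃ x y, NotChain (fun x => (π x).1) lt ν s x y) →
      ∃ x ∈ m.mL, ∃ y ∈ m.mL, NotChain (fun x => (π x).1) lt ν s x y) ∧
    (∀ ν, ∀ s ∈ m.mP, (∃ x y, NotDown lt ν s x y) →
      ∃ x ∈ m.mL, ∃ y ∈ m.mL, NotDown lt ν s x y) ∧
    (∀ ν, ∀ s ∈ m.mP, ∀ y ∈ m.mL, {x | x ∈ s ∧ lt ν x y} ∈ m.mP) ∧
    (∀ s ∈ m.mX, Order.succ κ ≤ #s → Order.succ κ ≤ #{f | f ∈ s ∧ f ∈ m.mQ}) ∧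
    (∀ s ∈ m.mX, ∀ η ∈ m.mL, γ s η ∈ m.mL) := by
  classical
  have hκ1 : ℵ₀ ≤ Order.succ κ := hκ.trans (Order.le_succ κ)
  have hκ2 : ℵ₀ ≤ Order.succ (Order.succ κ) := hκ1.trans (Order.le_succ _)
  have : Nonempty (Lt κ) := by
    rw [← mk_ne_zero_iff, mk_ord_toType]
    exact (aleph0_pos.trans_le hκ2).ne'
  have : Nonempty (Wt κ) := by
    rw [← mk_ne_zero_iff, mk_ord_toType]
    exact (aleph0_pos.trans_le hκ1).ne'
  have : Nonempty (Kt κ) := by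
    rw [← mk_ne_zero_iff, mk_ord_toType]
    exact (aleph0_pos.trans_le hκ).ne'
  have : Nonempty (Qt κ) := ⟨⟨Classical.arbitrary _, fun _ => ∅⟩⟩
  have hh : ∀ x : Lt κ, ∃ f : Wt κ → Lt κ, ∀ y < x, ∃ i, f i = y := by
    intro x
    have h1 : #(Set.Iio x) ≤ #(Wt κ) := by
      rw [mk_ord_toType]
      exact mk_Iio_L x
    obtain ⟨g⟩ := h1
    refine ⟨fun i => if h : ∃ y : Set.Iio x, g y = i then h.choose.1 else Classical.arbitrary _,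
      fun y hy => ⟨g ⟨y, hy⟩, ?_⟩⟩
    have h2 : ∃ y' : Set.Iio x, g y' = g ⟨y, hy⟩ := ⟨_, rfl⟩
    simp only []
    rw [dif_pos h2]
    exact congrArg Subtype.val (g.injective h2.choose_spec)
  choose h hh using hh
  have hρ : ∃ ρ : Wt κ → Kt κ, Function.Surjective ρ := by
    have h1 : #(Kt κ) ≤ #(Wt κ) := by
      rw [mk_ord_toType, mk_ord_toType]
      exact Order.le_succ κ
    obtain ⟨g⟩ := h1
    exact ⟨Function.invFun g, Function.invFun_surjective g.injective⟩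
  obtain ⟨ρ, hρ⟩ := hρ
  have hE : ∀ s : Set (Qt κ), ∃ f : Wt κ → Qt κ, Order.succ κ ≤ #s →
      (Function.Injective f ∧ ∀ i, f i ∈ s) := by
    intro s
    by_cases hs : Order.succ κ ≤ #s
    · have h1 : #(Wt κ) ≤ #s := by
        rw [mk_ord_toType]
        exact hs
      obtain ⟨g⟩ := h1
      exact ⟨fun i => (g i).1, fun _ => ⟨fun i j hij => g.injective (Subtype.ext hij),
        fun i => (g i).2⟩⟩
    · exact ⟨fun _ => Classical.arbitrary _, fun h => absurd h hs⟩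
  choose E hE using hE
  have hJ : #(ℕ × Wt κ) ≤ Order.succ κ := by
    rw [mk_prod, Cardinal.lift_id, Cardinal.lift_id, mk_ord_toType]
    exact mul_le_of_le hκ1 (mk_le_aleph0.trans hκ1) le_rfl
  obtain ⟨m, hm⟩ := exists_model hκ hG hJ (fam π lt h ρ E γ)
  have i0 : Wt κ := Classical.arbitrary _
  refine ⟨m, ?_, ?_, ?_, ?_, ?_, ?_, ?_, ?_, ?_, ?_, ?_⟩
  · intro x hx y hy
    obtain ⟨i, rfl⟩ := hh x y hy
    exact hm.LL (0, i) x hx
  · intro α hα i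
    exact hm.LL (1, i) α hα
  · intro x hx
    exact hm.LL (2, i0) x hx
  · intro s hs hex
    exact ⟨_, hm.PL (0, i0) s hs, Classical.epsilon_spec hex⟩
  · intro s hs hex
    exact ⟨_, hm.PL (1, i0) s hs, Classical.epsilon_spec hex⟩
  · intro s hs hex
    exact ⟨_, hm.PL (2, i0) s hs, Classical.epsilon_spec hex⟩
  · intro ν s hs hex
    obtain ⟨i, rfl⟩ := hρ ν
    have hex' : ∃ q : Lt κ × Lt κ, NotChain (fun x => (π x).1) lt (ρ i) s q.1 q.2 := by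
      obtain ⟨x, y, h⟩ := hex
      exact ⟨(x, y), h⟩
    exact ⟨_, hm.PL (3, i) s hs, _, hm.PL (4, i) s hs, Classical.epsilon_spec hex'⟩
  · intro ν s hs hex
    obtain ⟨i, rfl⟩ := hρ ν
    have hex' : ∃ q : Lt κ × Lt κ, NotDown lt (ρ i) s q.1 q.2 := by
      obtain ⟨x, y, h⟩ := hex
      exact ⟨(x, y), h⟩
    exact ⟨_, hm.PL (5, i) s hs, _, hm.PL (6, i) s hs, Classical.epsilon_spec hex'⟩
  · intro ν s hs y hy
    obtain ⟨i, rfl⟩ := hρ ν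
    exact hm.PLP (0, i) s hs y hy
  · intro s hs hle
    obtain ⟨h1, h2⟩ := hE s hle
    have h3 : #(Wt κ) ≤ #{f | f ∈ s ∧ f ∈ m.mQ} :=
      mk_le_of_injective (f := fun i : Wt κ => (⟨E s i, h2 i, hm.XQ (0, i) s hs⟩ :
        {f | f ∈ s ∧ f ∈ m.mQ})) fun i j hij => h1 (congrArg Subtype.val hij)
    rwa [mk_ord_toType] at h3
  · intro s hs η hη
    exact hm.XLL (0, i0) s hs η hη

/-- the branch below `t` at `ν` is cofinal in the level of `t` -/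
def Nc (lev : Lt κ → Lt κ) (lt : Kt κ → Lt κ → Lt κ → Prop) (ν : Kt κ) (t : Lt κ) : Prop :=
  ∀ α < lev t, ∃ x, lt ν x t ∧ α < lev x

structure Phi (lev : Lt κ → Lt κ) (lt : Kt κ → Lt κ → Lt κ → Prop) (U : Set (Set (Lt κ)))
    (η t : Lt κ) : Prop where
  eta_lt : η < lev t
  cof : ∀ S : Set (Lt κ), #S ≤ κ → (∀ x ∈ S, x < lev t) → ∃ β < lev t, ∀ x ∈ S, x < β
  good : ∀ ν, Nc lev lt ν t → ∃ e ∈ U, (∀ x ∈ e, ∀ y ∈ e, lev x < lev y → lt ν x y) ∧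
    (∀ x ∈ e, ∀ y, lt ν y x → y ∈ e) ∧ ∀ x, lev x < lev t → (x ∈ e ↔ lt ν x t)
  bad : ∀ ν, ¬ Nc lev lt ν t → ∀ x, lt ν x t → ¬ η < lev x

structure TData (lev : Lt κ → Lt κ) (lt : Kt κ → Lt κ → Lt κ → Prop) : Prop where
  lev_lt : ∀ ν x y, lt ν x y → lev x < lev y
  trans : ∀ ν x y z, lt ν x y → lt ν y z → lt ν x z
  comp : ∀ ν x y z, lt ν x z → lt ν y z → lev x < lev y → lt ν x y

/-- the values of the sequences in `a` -/
def vals (a : Set (Qt κ)) : Set (Set (Lt κ)) := {s | ∃ f ∈ a, ∃ ξ, f.2 ξ = s}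

theorem mk_vals_le (hκ : ℵ₀ ≤ κ) (a : Set (Qt κ)) (ha : #a ≤ κ) : #(vals a) ≤ κ := by
  have h1 : #(vals a) ≤ #(Σ f : a, Set.Iio f.1.1) := by
    refine mk_le_of_surjective (f := fun p : Σ f : a, Set.Iio f.1.1 =>
      (⟨p.1.1.2 p.2, p.1.1, p.1.2, p.2, rfl⟩ : vals a)) ?_
    rintro ⟨s, f, hf, ξ, rfl⟩
    exact ⟨⟨⟨f, hf⟩, ξ⟩, rfl⟩
  refine h1.trans ?_
  rw [mk_sigma]
  refine (Cardinal.sum_le_sum _ (fun _ => κ) fun f => (mk_Iio_K _).le).trans ?_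
  rw [sum_const, Cardinal.lift_id, Cardinal.lift_id]
  exact (mul_le_mul' ha le_rfl).trans (mul_eq_self hκ).le

theorem mdl_unbounded (hκ : ℵ₀ ≤ κ) (m : Mdl κ)
    (hX : ∀ s ∈ m.mX, Order.succ κ ≤ #s → Order.succ κ ≤ #{f | f ∈ s ∧ f ∈ m.mQ})
    (e : Kt κ → Set (Lt κ)) (he : ∀ ν, e ν ∈ m.mP) :
    ∃ a ∈ m.mX, #a ≤ κ ∧ ∀ ν, e ν ∈ vals a := by
  let r : Kt κ → Qt κ := fun ζ => ⟨ζ, fun ξ => e ξ.1⟩
  have hr : ∀ ζ, r ζ ∈ m.mQ := fun ζ => m.cl2 _ fun ξ => he ξ.1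
  have hval : ∀ a : Set (Qt κ), ∀ ν, (∃ ζ > ν, r ζ ∈ a) → e ν ∈ vals a := by
    rintro a ν ⟨ζ, h, hζ⟩
    exact ⟨r ζ, hζ, ⟨ν, h⟩, rfl⟩
  by_cases h : ∀ a ∈ m.mX, #a ≤ κ → Set.range r ∩ a ∈ m.mX
  · obtain ⟨a, ha, h1⟩ := m.guessQ (Set.range r) h
    refine ⟨a, ha, ?_, fun ν => hval a ν ?_⟩
    · by_contra hcon
      have h2 := hX a ha (Order.succ_le_of_lt (not_le.1 hcon))
      have h3 : {f | f ∈ a ∧ f ∈ m.mQ} ⊆ Set.range r := fun f hf => (h1 f hf.2).1 hf.1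
      have h4 : #(Set.range r) ≤ κ := by
        refine mk_range_le.trans ?_
        rw [mk_ord_toType]
      exact absurd ((h2.trans (mk_le_mk_of_subset h3)).trans h4) (not_le.2 (Order.lt_succ κ))
    · obtain ⟨ζ, hζ⟩ := exists_gt_K hκ ν
      exact ⟨ζ, hζ, (h1 _ (hr ζ)).2 ⟨ζ, rfl⟩⟩
  · push Not at h
    obtain ⟨a, ha, hac, h1⟩ := h
    refine ⟨a, ha, hac, fun ν => hval a ν ?_⟩
    by_contra hcon
    push Not at hcon
    refine h1 (m.cl3 _ ?_ ?_)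
    · obtain ⟨ν', hν'⟩ := exists_gt_K hκ ν
      have h2 : Set.range r ∩ a ⊆ r '' Set.Iio ν' := by
        rintro _ ⟨⟨ζ, rfl⟩, hζ⟩
        refine ⟨ζ, ?_, rfl⟩
        by_contra hlt
        exact hcon ζ (hν'.trans_le (not_lt.1 hlt)) hζ
      exact ((mk_le_mk_of_subset h2).trans mk_image_le).trans_lt (mk_Iio_K ν')
    · rintro _ ⟨⟨ζ, rfl⟩, _⟩
      exact hr ζ

theorem mdl_cof (hκ : ℵ₀ ≤ κ) (m : Mdl κ) (δ : Lt κ) (hδ : ∀ x, x ∈ m.mL ↔ x < δ)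
    (h1 : ∀ s ∈ m.mP, (∃ β, ∀ x ∈ s, x < β) → ∃ β ∈ m.mL, ∀ x ∈ s, x < β)
    (h2 : ∀ s ∈ m.mP, (∃ β, ¬ #{y | y ∈ s ∧ y < β} < κ) →
      ∃ β ∈ m.mL, ¬ #{y | y ∈ s ∧ y < β} < κ)
    (S : Set (Lt κ)) (hS : #S ≤ κ) (hSδ : ∀ x ∈ S, x < δ) : ∃ β < δ, ∀ x ∈ S, x < β := by
  by_contra hcon
  push Not at hcon
  obtain ⟨x0, hx0⟩ := m.nonempty
  obtain ⟨y0, hy0, _⟩ := hcon x0 ((hδ x0).1 hx0)
  have hg : ∃ g : Kt κ → S, Function.Surjective g := by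
    have h3 : #S ≤ #(Kt κ) := by
      rw [mk_ord_toType]
      exact hS
    obtain ⟨g⟩ := h3
    have : Nonempty S := ⟨⟨y0, hy0⟩⟩
    exact ⟨Function.invFun g, Function.invFun_surjective g.injective⟩
  obtain ⟨g, hg⟩ := hg
  let d : Set (Lt κ) := {y | ∃ i, (g i).1 = y ∧ ∀ j < i, (g j).1 < (g i).1}
  have hdδ : ∀ y ∈ d, y < δ := by
    rintro _ ⟨i, rfl, _⟩
    exact hSδ _ (g i).2
  have hdc : ∀ β < δ, ∃ y ∈ d, β ≤ y := by
    intro β hβ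
    have hne : ({i | β ≤ (g i).1} : Set (Kt κ)).Nonempty := by
      obtain ⟨y, hy, hle⟩ := hcon β hβ
      obtain ⟨i, hi⟩ := hg ⟨y, hy⟩
      exact ⟨i, by simpa [hi] using hle⟩
    obtain ⟨i, hi, hmin⟩ := WellFounded.has_min (wellFounded_lt (α := Kt κ)) _ hne
    refine ⟨_, ⟨i, rfl, fun j hj => ?_⟩, hi⟩
    by_contra hlt
    exact hmin j (hi.trans (not_lt.1 hlt) : β ≤ (g j).1) hj
  have hds : ∀ β < δ, #{y | y ∈ d ∧ y < β} < κ := by
    intro β hβ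
    obtain ⟨y, hy, hle⟩ := hcon β hβ
    obtain ⟨i, hi⟩ := hg ⟨y, hy⟩
    have h3 : {y | y ∈ d ∧ y < β} ⊆ (fun j => (g j).1) '' Set.Iio i := by
      rintro _ ⟨⟨j, rfl, hj⟩, hjβ⟩
      refine ⟨j, ?_, rfl⟩
      rcases lt_trichotomy j i with h | h | h
      · exact h
      · exfalso
        rw [h, hi] at hjβ
        exact absurd (hjβ.trans_le hle) (lt_irrefl _)
      · exfalso
        have := hj i h
        rw [hi] at this
        exact absurd ((this.trans hjβ).trans_le hle) (lt_irrefl _)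
    exact ((mk_le_mk_of_subset h3).trans mk_image_le).trans_lt (mk_Iio_K i)
  obtain ⟨e, he, hed⟩ := m.guess d (by
    intro a ha hac
    obtain ⟨β, hβ, hab⟩ := h1 a ha (bdd_of_small hκ a (hac.trans (Order.le_succ κ)))
    have h3 : d ∩ a ⊆ {y | y ∈ d ∧ y < β} := fun y hy => ⟨hy.1, hab y hy.2⟩
    exact m.cl1 _ ((mk_le_mk_of_subset h3).trans_lt (hds β ((hδ β).1 hβ)))
      fun y hy => (hδ y).2 (hdδ y hy.1))
  by_cases hd : #d < κ
  · obtain ⟨β, hβ, hb⟩ := h1 d (m.cl1 d hd fun y hy => (hδ y).2 (hdδ y hy)) ⟨δ, hdδ⟩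
    obtain ⟨y, hy, hle⟩ := hdc β ((hδ β).1 hβ)
    exact absurd ((hb y hy).trans_le hle) (lt_irrefl _)
  · have h4 : ∀ β ≤ δ, {y | y ∈ e ∧ y < β} = {y | y ∈ d ∧ y < β} := by
      intro β hβ
      ext y
      constructor
      · rintro ⟨h5, h6⟩
        exact ⟨(hed y ((hδ y).2 (h6.trans_le hβ))).1 h5, h6⟩
      · rintro ⟨h5, h6⟩
        exact ⟨(hed y ((hδ y).2 (h6.trans_le hβ))).2 h5, h6⟩
    obtain ⟨β, hβ, hb⟩ := h2 e he ⟨δ, by
      rw [h4 δ le_rfl]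
      have h5 : {y | y ∈ d ∧ y < δ} = d := by
        ext y
        exact ⟨fun h => h.1, fun h => ⟨h, hdδ y h⟩⟩
      rwa [h5]⟩
    rw [h4 β ((hδ β).1 hβ).le] at hb
    exact hb (hds β ((hδ β).1 hβ))

theorem reflect (hκ : ℵ₀ ≤ κ) (hG : GMP κ) (π : Lt κ ≃ Lt κ × Wt κ)
    (lt : Kt κ → Lt κ → Lt κ → Prop) (hT : TData (fun x => (π x).1) lt) :
    ∃ U : Set (Set (Lt κ)), #U ≤ κ ∧ ∃ η, ∀ β, ∃ t, β < (π t).1 ∧
      Phi (fun x => (π x).1) lt U η t := by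
  classical
  have hκ1 : ℵ₀ ≤ Order.succ κ := hκ.trans (Order.le_succ κ)
  have hκ2 : ℵ₀ ≤ Order.succ (Order.succ κ) := hκ1.trans (Order.le_succ _)
  have : Nonempty (Lt κ) := by
    rw [← mk_ne_zero_iff, mk_ord_toType]
    exact (aleph0_pos.trans_le hκ2).ne'
  have : Nonempty (Wt κ) := by
    rw [← mk_ne_zero_iff, mk_ord_toType]
    exact (aleph0_pos.trans_le hκ1).ne'
  have i0 : Wt κ := Classical.arbitrary _
  by_contra hcon
  push Not at hcon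
  let γ : Set (Qt κ) → Lt κ → Lt κ := fun a η => Classical.epsilon fun β =>
    ∀ t, β < (π t).1 → ¬ Phi (fun x => (π x).1) lt (vals a) η t
  obtain ⟨m, hinit, hmk, hlev, hbd, hbdlev, hN, hch, hdn, hPLP, hX, hγ⟩ :=
    exists_mdl hκ hG π lt γ
  -- the least non-member
  have hne : (m.mLᶜ).Nonempty := by
    by_contra h
    rw [Set.not_nonempty_iff_eq_empty, Set.compl_empty_iff] at h
    have h1 := m.small
    rw [h, mk_univ, mk_ord_toType] at h1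
    exact absurd h1 (not_le.2 (Order.lt_succ _))
  obtain ⟨δ, hδ1, hδ2⟩ := WellFounded.has_min (wellFounded_lt (α := Lt κ)) _ hne
  have hδ : ∀ x, x ∈ m.mL ↔ x < δ := by
    intro x
    constructor
    · intro hx
      rcases lt_trichotomy x δ with h | h | h
      · exact h
      · exact absurd (h ▸ hx) hδ1
      · exact absurd (hinit x hx δ h) hδ1
    · intro hx
      by_contra h
      exact hδ2 x h hx
  have hcof := mdl_cof hκ m δ hδ hbd hN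
  -- the node
  let t : Lt κ := π.symm (δ, i0)
  have ht : (π t).1 = δ := by simp [t]
  have hmem : ∀ x, (π x).1 < δ → x ∈ m.mL := by
    intro x hx
    have h1 := hmk _ ((hδ _).2 hx) (π x).2
    simpa using h1
  -- the guesses
  have hgood : ∀ ν, ∃ e ∈ m.mP, Nc (fun x => (π x).1) lt ν t →
      ((∀ x ∈ e, ∀ y ∈ e, (π x).1 < (π y).1 → lt ν x y) ∧
      (∀ x ∈ e, ∀ y, lt ν y x → y ∈ e) ∧ ∀ x, (π x).1 < (π t).1 → (x ∈ e ↔ lt ν x t)) := by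
    intro ν
    by_cases hν : Nc (fun x => (π x).1) lt ν t
    · obtain ⟨e, he, hed⟩ := m.guess {x | lt ν x t} (by
        intro a ha hac
        have h1 : ∃ β, ∀ x ∈ a, (π x).1 < β := by
          obtain ⟨β, hβ⟩ := bdd_of_small hκ ((fun x => (π x).1) '' a)
            ((mk_image_le.trans hac).trans (Order.le_succ κ))
          exact ⟨β, fun x hx => hβ _ ⟨x, hx, rfl⟩⟩
        obtain ⟨β, hβ, hab⟩ := hbdlev a ha h1
        have hβδ : β < (π t).1 := by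
          rw [ht]
          exact (hδ β).1 hβ
        obtain ⟨s, hs, hβs⟩ := hν β hβδ
        have hsL : s ∈ m.mL := hmem s (ht ▸ hT.lev_lt ν s t hs)
        have h2 : {x | lt ν x t} ∩ a = {x | x ∈ a ∧ lt ν x s} := by
          ext x
          constructor
          · rintro ⟨h3, h4⟩
            exact ⟨h4, hT.comp ν x s t h3 hs ((hab x h4).trans hβs)⟩
          · rintro ⟨h3, h4⟩
            exact ⟨hT.trans ν x s t h4 hs, h3⟩
        rw [h2]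
        exact hPLP ν a ha s hsL)
      refine ⟨e, he, fun _ => ⟨?_, ?_, ?_⟩⟩
      · by_contra h
        push Not at h
        obtain ⟨x, hx, y, hy, hxy, hn⟩ := h
        obtain ⟨x, hxL, y, hyL, hx, hy, hxy, hn⟩ := hch ν e he ⟨x, y, hx, hy, hxy, hn⟩
        exact hn (hT.comp ν x y t ((hed x hxL).1 hx) ((hed y hyL).1 hy) hxy)
      · by_contra h
        push Not at h
        obtain ⟨x, hx, y, hy, hn⟩ := h
        obtain ⟨x, hxL, y, hyL, hx, hy, hn⟩ := hdn ν e he ⟨x, y, hx, hy, hn⟩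
        exact hn ((hed y hyL).2 (hT.trans ν y x t hy ((hed x hxL).1 hx)))
      · intro x hx
        exact hed x (hmem x (ht ▸ hx))
    · exact ⟨∅, m.cl1 ∅ (by simpa using (aleph0_pos.trans_le hκ)) (Set.empty_subset _),
        fun h => absurd h hν⟩
  choose e he hegood using hgood
  obtain ⟨a, ha, hac, hea⟩ := mdl_unbounded hκ m hX e he
  -- the bound
  have hη : ∃ η < δ, ∀ ν, ¬ Nc (fun x => (π x).1) lt ν t → ∀ x, lt ν x t → ¬ η < (π x).1 := by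
    have h1 : ∀ ν, ∃ α < δ, ¬ Nc (fun x => (π x).1) lt ν t → ∀ x, lt ν x t → ¬ α < (π x).1 := by
      intro ν
      by_cases hν : Nc (fun x => (π x).1) lt ν t
      · obtain ⟨x0, hx0⟩ := m.nonempty
        exact ⟨x0, (hδ x0).1 hx0, fun h => absurd hν h⟩
      · have hν' := hν
        unfold Nc at hν'
        push Not at hν'
        obtain ⟨α, hα, h⟩ := hν'
        exact ⟨α, ht ▸ hα, fun _ x hx => not_lt.2 (h x hx)⟩
    choose α hα1 hα2 using h1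
    obtain ⟨η, hη1, hη2⟩ := hcof (Set.range α) (mk_range_le.trans (mk_ord_toType κ).le) (by
      rintro _ ⟨ν, rfl⟩
      exact hα1 ν)
    exact ⟨η, hη1, fun ν hν x hx h => hα2 ν hν x hx ((hη2 _ ⟨ν, rfl⟩).trans h)⟩
  obtain ⟨η, hη1, hη2⟩ := hη
  have hPhi : Phi (fun x => (π x).1) lt (vals a) η t := by
    refine ⟨?_, ?_, ?_, hη2⟩
    · rw [ht]
      exact hη1
    · rw [ht]
      exact hcof
    · intro ν hν
      exact ⟨e ν, hea ν, hegood ν hν⟩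
  have h1 : γ a η ∈ m.mL := hγ a ha η ((hδ η).2 hη1)
  have h2 : ∀ t, γ a η < (π t).1 → ¬ Phi (fun x => (π x).1) lt (vals a) η t := by
    refine Classical.epsilon_spec (p := fun β => ∀ t, β < (π t).1 →
      ¬ Phi (fun x => (π x).1) lt (vals a) η t) ?_
    exact hcon (vals a) (mk_vals_le hκ a hac) η
  exact h2 t (by rw [ht]; exact (hδ _).1 h1) hPhi

end Pool.Agent.W873.Gmp
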