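import Mathlib
import Pool.Agent.W873.Gmp.Comb

set_option autoImplicit false

/-!
# The forcing argument
-/

namespace Pool.Agent.W873.Gmp

open Cardinal Ordinal Pool.Agent.Helper669.Forcing

section tree

variable {P : Type} [Preorder P] {L Lam W : Type} [LinearOrder Lam]
  {R : L → L → Set P} {ℓ : L → Lam → Set P} {p0 : P}

theorem meets_dn {N : Set P} {p q : P} (h : p ∈ meets N) (hq : q ≤ p) : q ∈ meets N :=
  down_meets N p h q hq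

theorem meets_of_dense {N : Set P} {p : P} (h : ∀ q ≤ p, ∃ r ≤ q, r ∈ meets N) : p ∈ meets N := by
  intro q hq
  obtain ⟨r, hr, h'⟩ := h q hq
  obtain ⟨s, hs, n, hn, hsn⟩ := h' r le_rfl
  exact ⟨s, hs.trans hr, n, hn, hsn⟩

theorem down_for' (φ ψ : Set P) : Down (for' φ ψ) := down_fnot _

theorem for'_left {φ ψ : Set P} (hφ : Down φ) {p : P} (h : p ∈ φ) : p ∈ for' φ ψ :=
  fun q hq h' => h'.1 q le_rfl (hφ p h q hq)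

theorem for'_right {φ ψ : Set P} (hψ : Down ψ) {p : P} (h : p ∈ ψ) : p ∈ for' φ ψ :=
  fun q hq h' => h'.2 q le_rfl (hψ p h q hq)

theorem t_unique (h0 : p0 ∈ IsTree W R ℓ) {p : P} (hp : p ≤ p0) {x : L} {a b : Lam}
    (ha : p ∈ meets (ℓ x a)) (hb : p ∈ meets (ℓ x b)) : a = b :=
  IsFun.unique (down_IsFun ℓ p0 h0.1 p hp) ha hb

theorem t_total (h0 : p0 ∈ IsTree W R ℓ) {p : P} (hp : p ≤ p0) (x : L) :
    ∃ q ≤ p, ∃ a, q ∈ meets (ℓ x a) :=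
  IsFun.total (down_IsFun ℓ p0 h0.1 p hp) x

theorem t_lt (h0 : p0 ∈ IsTree W R ℓ) {p : P} (hp : p ≤ p0) {x y : L} {a b : Lam}
    (h : p ∈ meets (R x y)) (ha : p ∈ meets (ℓ x a)) (hb : p ∈ meets (ℓ y b)) : a < b := by
  obtain ⟨r, _, hr⟩ := mem_fimp.1 (h0.2.1 x y a b) p hp ⟨h, ha, hb⟩
  exact hr

theorem t_trans (h0 : p0 ∈ IsTree W R ℓ) {p : P} (hp : p ≤ p0) {x y z : L}
    (h : p ∈ meets (R x y)) (h' : p ∈ meets (R y z)) : p ∈ meets (R x z) :=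
  meets_of_dense fun q hq =>
    mem_fimp.1 (h0.2.2.1 x y z) q (hq.trans hp) ⟨meets_dn h hq, meets_dn h' hq⟩

theorem t_pred (h0 : p0 ∈ IsTree W R ℓ) {p : P} (hp : p ≤ p0) {y : L} {a b : Lam}
    (hb : p ∈ meets (ℓ y b)) (hab : a < b) :
    ∃ q ≤ p, ∃ x, q ∈ meets (R x y) ∧ q ∈ meets (ℓ x a) := by
  obtain ⟨r, hr, h⟩ := mem_fimp.1 (h0.2.2.2.1 y b a hab) p hp hb
  obtain ⟨s, hs, x, hx⟩ := mem_fex.1 h r le_rfl
  exact ⟨s, hs.trans hr, x, hx.1, hx.2⟩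

theorem t_uniq (h0 : p0 ∈ IsTree W R ℓ) {p : P} (hp : p ≤ p0) {x y z : L} {a : Lam}
    (h1 : p ∈ meets (R x z)) (h2 : p ∈ meets (R y z)) (h3 : p ∈ meets (ℓ x a))
    (h4 : p ∈ meets (ℓ y a)) : x = y := by
  obtain ⟨r, _, hr⟩ := mem_fimp.1 (h0.2.2.2.2.1 x y z a) p hp ⟨⟨h1, h2⟩, h3, h4⟩
  exact hr

theorem t_ne (h0 : p0 ∈ IsTree W R ℓ) {p : P} (hp : p ≤ p0) (a : Lam) :
    ∃ q ≤ p, ∃ x, q ∈ meets (ℓ x a) := by
  obtain ⟨r, hr, x, hx⟩ := mem_fex.1 (h0.2.2.2.2.2.1 a) p hp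
  exact ⟨r, hr, x, hx⟩

theorem t_small (h0 : p0 ∈ IsTree W R ℓ) {p : P} (hp : p ≤ p0) (a : Lam) :
    ∃ q ≤ p, ∃ F : W → L → Set P, q ∈ IsFun F ∧ ∀ x, ∀ r ≤ q, r ∈ meets (ℓ x a) →
      ∃ s ≤ r, ∃ w, s ∈ meets (F w x) := by
  obtain ⟨q, hq, F, hF⟩ := mem_fex.1 (h0.2.2.2.2.2.2 a) p hp
  refine ⟨q, hq, F, hF.1, fun x r hr hrx => ?_⟩
  obtain ⟨s, hs, h⟩ := mem_fimp.1 (hF.2 x) r hr hrx
  obtain ⟨s', hs', w, hw⟩ := mem_fex.1 h s le_rfl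
  exact ⟨s', hs'.trans hs, w, hw⟩

theorem t_comp (h0 : p0 ∈ IsTree W R ℓ) {p : P} (hp : p ≤ p0) {x y z : L} {a b : Lam}
    (h1 : p ∈ meets (R x z)) (h2 : p ∈ meets (R y z)) (h3 : p ∈ meets (ℓ x a))
    (h4 : p ∈ meets (ℓ y b)) (hab : a < b) : p ∈ meets (R x y) := by
  refine meets_of_dense fun q hq => ?_
  obtain ⟨r, hr, x', hx', hx'a⟩ := t_pred h0 (hq.trans hp) (meets_dn h4 hq) hab
  have hr0 : r ≤ p0 := hr.trans (hq.trans hp)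
  have hrp : r ≤ p := hr.trans hq
  have := t_uniq h0 hr0 (meets_dn h1 hrp) (t_trans h0 hr0 hx' (meets_dn h2 hrp))
    (meets_dn h3 hrp) hx'a
  exact ⟨r, hr, this ▸ hx'⟩

end tree

section main

variable {κ : Cardinal.{0}} {P : Type} [Preorder P] {L : Type}
  {R : L → L → Set P} {ℓ : L → Lt κ → Set P} {p0 : P} {D : Kt κ → Set P}

theorem mk_poss (hκ : ℵ₀ ≤ κ) (hD1 : ∀ p, ∃ i, p ∈ D i)
    (hD2 : ∀ i, ∀ p ∈ D i, ∀ q ∈ D i, ∃ r ∈ D i, r ≤ p ∧ r ≤ q)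
    (h0 : p0 ∈ IsTree (Wt κ) R ℓ) (a : Lt κ) :
    #{u | ∃ p ≤ p0, p ∈ meets (ℓ u a)} ≤ Order.succ κ := by
  classical
  have hκ1 : ℵ₀ ≤ Order.succ κ := hκ.trans (Order.le_succ κ)
  obtain ⟨_, _, u0, _⟩ := t_ne h0 le_rfl a
  have : Nonempty L := ⟨u0⟩
  have h1 : ∀ i : Kt κ, ∃ (q : P) (F : Wt κ → L → Set P),
      (∃ q ∈ D i, q ≤ p0 ∧ ∃ F : Wt κ → L → Set P, q ∈ IsFun F ∧ ∀ x, ∀ r ≤ q,
        r ∈ meets (ℓ x a) → ∃ s ≤ r, ∃ w, s ∈ meets (F w x)) →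
      (q ∈ D i ∧ q ≤ p0 ∧ q ∈ IsFun F ∧ ∀ x, ∀ r ≤ q, r ∈ meets (ℓ x a) →
        ∃ s ≤ r, ∃ w, s ∈ meets (F w x)) := by
    intro i
    by_cases h : (∃ q ∈ D i, q ≤ p0 ∧ ∃ F : Wt κ → L → Set P, q ∈ IsFun F ∧ ∀ x, ∀ r ≤ q,
        r ∈ meets (ℓ x a) → ∃ s ≤ r, ∃ w, s ∈ meets (F w x))
    · obtain ⟨q, hq, hq0, F, hF, h2⟩ := h
      exact ⟨q, F, fun _ => ⟨hq, hq0, hF, h2⟩⟩
    · exact ⟨p0, fun _ _ => ∅, fun h' => absurd h' h⟩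
  choose q F hqF using h1
  let g : Kt κ × Wt κ × Kt κ → L := fun j => Classical.epsilon fun x =>
    ∃ s ∈ D j.2.2, s ≤ q j.1 ∧ s ∈ meets (F j.1 j.2.1 x)
  have hsub : {u | ∃ p ≤ p0, p ∈ meets (ℓ u a)} ⊆ Set.range g := by
    rintro u ⟨p, hp, hpu⟩
    obtain ⟨q1, hq1, F1, hF1, h2⟩ := t_small h0 hp a
    obtain ⟨i, hi⟩ := hD1 q1
    obtain ⟨h3, h4, h5, h6⟩ := hqF i ⟨q1, hi, hq1.trans hp, F1, hF1, h2⟩
    obtain ⟨r, hr, hr1, hr2⟩ := hD2 i q1 hi (q i) h3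
    obtain ⟨s, hs, w, hw⟩ := h6 u r hr2 (meets_dn hpu (hr1.trans hq1))
    obtain ⟨j, hj⟩ := hD1 s
    refine ⟨(i, w, j), ?_⟩
    obtain ⟨s', hs', hs'q, hs'F⟩ := Classical.epsilon_spec
      (p := fun x => ∃ s ∈ D j, s ≤ q i ∧ s ∈ meets (F i w x)) ⟨u, s, hj, hs.trans hr2, hw⟩
    obtain ⟨s'', _, h7, h8⟩ := hD2 j s hj s' hs'
    exact IsFun.unique (down_IsFun _ _ h5 s'' (h8.trans hs'q)) (meets_dn hs'F h8)
      (meets_dn hw h7)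
  refine (mk_le_mk_of_subset hsub).trans (mk_range_le.trans ?_)
  rw [mk_prod, mk_prod, Cardinal.lift_id, Cardinal.lift_id, Cardinal.lift_id,
    mk_ord_toType, mk_ord_toType]
  exact mul_le_of_le hκ1 (Order.le_succ κ) (mul_le_of_le hκ1 le_rfl (Order.le_succ κ))

theorem exists_nodes (hκ : ℵ₀ ≤ κ) (hD1 : ∀ p, ∃ i, p ∈ D i)
    (hD2 : ∀ i, ∀ p ∈ D i, ∀ q ∈ D i, ∃ r ∈ D i, r ≤ p ∧ r ≤ q)
    (h0 : p0 ∈ IsTree (Wt κ) R ℓ) : ∃ (π : Lt κ ≃ Lt κ × Wt κ) (el : Lt κ → L),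
      (∀ x, ∃ p ≤ p0, p ∈ meets (ℓ (el x) (π x).1)) ∧
      ∀ u a, ∀ p ≤ p0, p ∈ meets (ℓ u a) → ∃ x, (π x).1 = a ∧ el x = u := by
  classical
  have hκ1 : ℵ₀ ≤ Order.succ κ := hκ.trans (Order.le_succ κ)
  have hκ2 : ℵ₀ ≤ Order.succ (Order.succ κ) := hκ1.trans (Order.le_succ _)
  have h1 : #(Lt κ) = #(Lt κ × Wt κ) := by
    rw [mk_prod, Cardinal.lift_id, Cardinal.lift_id, mk_ord_toType, mk_ord_toType]
    exact (mul_eq_left hκ2 (Order.le_succ _) (aleph0_pos.trans_le hκ1).ne').symm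
  obtain ⟨π⟩ := Cardinal.eq.1 h1
  have h2 : ∀ a : Lt κ, ∃ f : Wt κ → L, (∀ i, ∃ p ≤ p0, p ∈ meets (ℓ (f i) a)) ∧
      ∀ u, ∀ p ≤ p0, p ∈ meets (ℓ u a) → ∃ i, f i = u := by
    intro a
    obtain ⟨q0, hq0, u0, hu0⟩ := t_ne h0 le_rfl a
    have h3 : #{u | ∃ p ≤ p0, p ∈ meets (ℓ u a)} ≤ #(Wt κ) := by
      rw [mk_ord_toType]
      exact mk_poss hκ hD1 hD2 h0 a
    obtain ⟨g⟩ := h3
    have : Nonempty {u | ∃ p ≤ p0, p ∈ meets (ℓ u a)} := ⟨⟨u0, q0, hq0, hu0⟩⟩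
    refine ⟨fun i => (Function.invFun g i).1, fun i => (Function.invFun g i).2, ?_⟩
    intro u p hp hu
    obtain ⟨i, hi⟩ := Function.invFun_surjective g.injective ⟨u, p, hp, hu⟩
    exact ⟨i, congrArg Subtype.val hi⟩
  choose f hf1 hf2 using h2
  refine ⟨π, fun x => f (π x).1 (π x).2, fun x => hf1 _ _, fun u a p hp hu => ?_⟩
  obtain ⟨i, hi⟩ := hf2 a u p hp hu
  refine ⟨π.symm (a, i), by simp, ?_⟩
  simp only [Equiv.apply_symm_apply]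
  exact hi

/-- `p` forces that the node `x` is at its level -/
def T (ℓ : L → Lt κ → Set P) (π : Lt κ ≃ Lt κ × Wt κ) (el : Lt κ → L) (p : P) (x : Lt κ) : Prop :=
  p ∈ meets (ℓ (el x) (π x).1)

/-- the order on the nodes induced by the directed set `D ν` -/
def ltd (R : L → L → Set P) (ℓ : L → Lt κ → Set P) (p0 : P) (D : Kt κ → Set P)
    (π : Lt κ ≃ Lt κ × Wt κ) (el : Lt κ → L) (ν : Kt κ) (x y : Lt κ) : Prop :=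
  (π x).1 < (π y).1 ∧ ∃ p ∈ D ν, p ≤ p0 ∧ T ℓ π el p x ∧ T ℓ π el p y ∧
    p ∈ meets (R (el x) (el y))

/-- `q` forces that all predecessors of `s` are predecessors of `z` -/
def FC (R : L → L → Set P) (ℓ : L → Lt κ → Set P) (π : Lt κ ≃ Lt κ × Wt κ) (el : Lt κ → L)
    (q : P) (s z : Lt κ) : Prop :=
  T ℓ π el q s ∧ T ℓ π el q z ∧ ∀ u, ∀ q' ≤ q, q' ∈ meets (R u (el s)) → q' ∈ meets (R u (el z))

variable {π : Lt κ ≃ Lt κ × Wt κ} {el : Lt κ → L}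

theorem T.dn {p q : P} {x : Lt κ} (h : T ℓ π el p x) (hq : q ≤ p) : T ℓ π el q x := meets_dn h hq

theorem FC.dn {p q : P} {s z : Lt κ} (h : FC R ℓ π el p s z) (hq : q ≤ p) : FC R ℓ π el q s z :=
  ⟨h.1.dn hq, h.2.1.dn hq, fun u q' hq' => h.2.2 u q' (hq'.trans hq)⟩

theorem FC.dense {p : P} {s z : Lt κ} (h : ∀ q ≤ p, ∃ r ≤ q, FC R ℓ π el r s z) :
    FC R ℓ π el p s z := by
  refine ⟨?_, ?_, ?_⟩
  · exact meets_of_dense fun q hq => by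
      obtain ⟨r, hr, h⟩ := h q hq
      exact ⟨r, hr, h.1⟩
  · exact meets_of_dense fun q hq => by
      obtain ⟨r, hr, h⟩ := h q hq
      exact ⟨r, hr, h.2.1⟩
  · intro u q' hq' hu
    refine meets_of_dense fun q hq => ?_
    obtain ⟨r, hr, h⟩ := h q (hq.trans hq')
    exact ⟨r, hr, h.2.2 u r le_rfl (meets_dn hu (hr.trans hq))⟩

theorem tdata (hD2 : ∀ i, ∀ p ∈ D i, ∀ q ∈ D i, ∃ r ∈ D i, r ≤ p ∧ r ≤ q)
    (h0 : p0 ∈ IsTree (Wt κ) R ℓ) : TData (fun x => (π x).1) (ltd R ℓ p0 D π el) := by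
  refine ⟨fun ν x y h => h.1, fun ν x y z h h' => ?_, fun ν x y z h h' hlt => ?_⟩
  · obtain ⟨h1, p, hp, hp0, hx, hy, hxy⟩ := h
    obtain ⟨h2, q, hq, hq0, hy', hz, hyz⟩ := h'
    obtain ⟨r, hr, hrp, hrq⟩ := hD2 ν p hp q hq
    exact ⟨h1.trans h2, r, hr, hrp.trans hp0, hx.dn hrp, hz.dn hrq,
      t_trans h0 (hrp.trans hp0) (meets_dn hxy hrp) (meets_dn hyz hrq)⟩
  · obtain ⟨h1, p, hp, hp0, hx, hz, hxz⟩ := h
    obtain ⟨h2, q, hq, hq0, hy, hz', hyz⟩ := h'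
    obtain ⟨r, hr, hrp, hrq⟩ := hD2 ν p hp q hq
    exact ⟨hlt, r, hr, hrp.trans hp0, hx.dn hrp, hy.dn hrq,
      t_comp h0 (hrp.trans hp0) (meets_dn hxz hrp) (meets_dn hyz hrq) (hx.dn hrp) (hy.dn hrq)
        hlt⟩

theorem crucial (hD1 : ∀ p, ∃ i, p ∈ D i)
    (hD2 : ∀ i, ∀ p ∈ D i, ∀ q ∈ D i, ∃ r ∈ D i, r ≤ p ∧ r ≤ q)
    (h0 : p0 ∈ IsTree (Wt κ) R ℓ) {t z η : Lt κ} (hη : η < (π t).1)
    (hcof : ∀ S : Set (Lt κ), #S ≤ κ → (∀ x ∈ S, x < (π t).1) → ∃ β < (π t).1, ∀ x ∈ S, x < β)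
    (htz : (π t).1 ≤ (π z).1) {ν : Kt κ}
    (h : ∀ α < (π t).1, ∃ x, α < (π x).1 ∧ ltd R ℓ p0 D π el ν x t ∧ ltd R ℓ p0 D π el ν x z) :
    ∃ q ∈ D ν, q ≤ p0 ∧ FC R ℓ π el q t z := by
  classical
  obtain ⟨x0, _, ⟨_, p1, hp1, hp10, _, hp1t, _⟩, ⟨_, p2, hp2, hp20, _, hp2z, _⟩⟩ := h η hη
  obtain ⟨p3, hp3, hp31, hp32⟩ := hD2 ν p1 hp1 p2 hp2
  have hp30 : p3 ≤ p0 := hp31.trans hp10
  -- disagreement
  let Dis : P → Lt κ → Prop := fun q α => ∃ u v, u ≠ v ∧ q ∈ meets (ℓ u α) ∧ q ∈ meets (ℓ v α) ∧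
    q ∈ meets (R u (el t)) ∧ q ∈ meets (R v (el z))
  have hmu : ∀ μ : Kt κ, ∃ α < (π t).1, (∃ α < (π t).1, ∃ q ∈ D μ, q ≤ p3 ∧ Dis q α) →
      (∃ q ∈ D μ, q ≤ p3 ∧ Dis q α) := by
    intro μ
    by_cases hc : ∃ α < (π t).1, ∃ q ∈ D μ, q ≤ p3 ∧ Dis q α
    · obtain ⟨α, hα, h1⟩ := hc
      exact ⟨α, hα, fun _ => h1⟩
    · exact ⟨η, hη, fun h' => absurd h' hc⟩
  choose αm hα1 hα2 using hmu
  obtain ⟨β, hβ, hβα⟩ := hcof (Set.range αm) (mk_range_le.trans (mk_ord_toType κ).le) (by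
    rintro _ ⟨μ, rfl⟩
    exact hα1 μ)
  obtain ⟨x, hβx, ⟨hxt, p4, hp4, hp40, hp4x, hp4t, hp4r⟩, ⟨hxz, p5, hp5, hp50, hp5x, hp5z, hp5r⟩⟩ :=
    h β hβ
  obtain ⟨p6, hp6, hp64, hp65⟩ := hD2 ν p4 hp4 p5 hp5
  obtain ⟨p, hp, hpp6, hpp3⟩ := hD2 ν p6 hp6 p3 hp3
  have hpp0 : p ≤ p0 := hpp3.trans hp30
  have hpt : T ℓ π el p t := (hp4t.dn hp64).dn hpp6
  have hpz : T ℓ π el p z := (hp5z.dn hp65).dn hpp6
  have hpx : T ℓ π el p x := (hp4x.dn hp64).dn hpp6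
  have hpxt : p ∈ meets (R (el x) (el t)) := meets_dn (meets_dn hp4r hp64) hpp6
  have hpxz : p ∈ meets (R (el x) (el z)) := meets_dn (meets_dn hp5r hp65) hpp6
  refine ⟨p, hp, hpp0, hpt, hpz, ?_⟩
  intro u q hq hu
  refine meets_of_dense fun q1 hq1 => ?_
  by_contra hcon
  push Not at hcon
  -- no extension of `q1` forces `u < z`
  obtain ⟨q2, hq2, α, hα⟩ := t_total h0 (hq1.trans (hq.trans hpp0)) u
  have hq2p : q2 ≤ p := hq2.trans (hq1.trans hq)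
  have hq20 : q2 ≤ p0 := hq2p.trans hpp0
  have hαt : α < (π t).1 := t_lt h0 hq20 (meets_dn hu (hq2.trans hq1)) hα (hpt.dn hq2p)
  obtain ⟨q3, hq3, v, hv, hvα⟩ := t_pred h0 hq20 (hpz.dn hq2p) (hαt.trans_le htz)
  have hq3p : q3 ≤ p := hq3.trans hq2p
  have huv : u ≠ v := by
    rintro rfl
    exact hcon q3 (hq3.trans hq2) hv
  have hDis : Dis q3 α := ⟨u, v, huv, meets_dn hα hq3, hvα,
    meets_dn hu (hq3.trans (hq2.trans hq1)), hv⟩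
  obtain ⟨μ, hμ⟩ := hD1 q3
  obtain ⟨q4, hq4, hq43, u', v', huv', hu'α, hv'α, hu't, hv'z⟩ :=
    hα2 μ ⟨α, hαt, q3, hμ, hq3p.trans hpp3, hDis⟩
  obtain ⟨r, hr, hr3, hr4⟩ := hD2 μ q3 hμ q4 hq4
  have hrp : r ≤ p := hr3.trans hq3p
  have hαx : αm μ < (π x).1 := (hβα _ ⟨μ, rfl⟩).trans hβx
  obtain ⟨s, hs, w, hw, hwα⟩ := t_pred h0 (hrp.trans hpp0) (hpx.dn hrp) hαx
  have hsp : s ≤ p := hs.trans hrp
  have hs4 : s ≤ q4 := hs.trans hr4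
  have hs0 : s ≤ p0 := hsp.trans hpp0
  have h1 : w = u' := t_uniq h0 hs0 (t_trans h0 hs0 hw (meets_dn hpxt hsp)) (meets_dn hu't hs4)
    hwα (meets_dn hu'α hs4)
  have h2 : w = v' := t_uniq h0 hs0 (t_trans h0 hs0 hw (meets_dn hpxz hsp)) (meets_dn hv'z hs4)
    hwα (meets_dn hv'α hs4)
  exact huv' (h1.symm.trans h2)

theorem exists_index (hD1 : ∀ p, ∃ i, p ∈ D i)
    (h0 : p0 ∈ IsTree (Wt κ) R ℓ)
    (hel : ∀ u a, ∀ p ≤ p0, p ∈ meets (ℓ u a) → ∃ x, (π x).1 = a ∧ el x = u) {t : Lt κ}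
    (hcof : ∀ S : Set (Lt κ), #S ≤ κ → (∀ x ∈ S, x < (π t).1) → ∃ β < (π t).1, ∀ x ∈ S, x < β)
    {q : P} (hq : q ≤ p0) (hqt : T ℓ π el q t) :
    ∃ μ : Kt κ, ∀ α < (π t).1, ∃ x, ∃ q' ∈ D μ, q' ≤ q ∧ α < (π x).1 ∧ (π x).1 < (π t).1 ∧
      T ℓ π el q' x ∧ q' ∈ meets (R (el x) (el t)) := by
  by_contra hcon
  push Not at hcon
  choose α hα1 hα2 using hcon
  obtain ⟨β, hβ, hβα⟩ := hcof (Set.range α) (mk_range_le.trans (mk_ord_toType κ).le) (by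
    rintro _ ⟨μ, rfl⟩
    exact hα1 μ)
  obtain ⟨q', hq', u, hu, huβ⟩ := t_pred h0 hq hqt hβ
  obtain ⟨x, hx, rfl⟩ := hel u β q' (hq'.trans hq) huβ
  obtain ⟨μ, hμ⟩ := hD1 q'
  refine hα2 μ x q' hμ hq' ?_ ?_ ?_ hu
  · rw [hx]
    exact hβα _ ⟨μ, rfl⟩
  · rw [hx]
    exact hβ
  · unfold T
    rw [hx]
    exact huβ

theorem separate (hκ : ℵ₀ ≤ κ) (π : Lt κ ≃ Lt κ × Wt κ) (U : Set (Set (Lt κ))) (hU : #U ≤ κ) :
    ∃ η : Lt κ, ∀ e ∈ U, ∀ e' ∈ U, (∀ x, (π x).1 < η → (x ∈ e ↔ x ∈ e')) → e = e' := by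
  classical
  have hne : Nonempty (Lt κ) := by
    rw [← mk_ne_zero_iff, mk_ord_toType]
    exact (aleph0_pos.trans_le ((hκ.trans (Order.le_succ κ)).trans (Order.le_succ _))).ne'
  have h1 : ∀ q : U × U, ∃ x : Lt κ, q.1.1 ≠ q.2.1 → ¬ (x ∈ q.1.1 ↔ x ∈ q.2.1) := by
    intro q
    by_cases h : q.1.1 = q.2.1
    · exact ⟨Classical.arbitrary _, fun h' => absurd h h'⟩
    · by_contra hcon
      push Not at hcon
      exact h (Set.ext fun x => (hcon x).2)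
  choose f hf using h1
  obtain ⟨η, hη⟩ := bdd_of_small hκ (Set.range fun q => (π (f q)).1) (by
    refine mk_range_le.trans ?_
    rw [mk_prod, Cardinal.lift_id]
    exact ((mul_le_mul' hU hU).trans (mul_eq_self hκ).le).trans (Order.le_succ κ))
  refine ⟨η, fun e he e' he' h => ?_⟩
  by_contra hne'
  exact hf (⟨e, he⟩, ⟨e', he'⟩) hne' (h _ (hη _ ⟨(⟨e, he⟩, ⟨e', he'⟩), rfl⟩))

theorem comparable (h0 : p0 ∈ IsTree (Wt κ) R ℓ) {q : P} (hq : q ≤ p0) {x y w : L}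
    (hx : q ∈ meets (R x w)) (hy : q ∈ meets (R y w)) :
    ∃ r ≤ q, r ∈ for' (fground (x = y)) (for' (meets (R x y)) (meets (R y x))) := by
  obtain ⟨q1, hq1, a, ha⟩ := t_total h0 hq x
  obtain ⟨q2, hq2, b, hb⟩ := t_total h0 (hq1.trans hq) y
  have hq20 : q2 ≤ p0 := hq2.trans (hq1.trans hq)
  have ha' := meets_dn ha hq2
  have hx' := meets_dn hx (hq2.trans hq1)
  have hy' := meets_dn hy (hq2.trans hq1)
  refine ⟨q2, hq2.trans hq1, ?_⟩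
  rcases lt_trichotomy a b with h | h | h
  · exact for'_right (down_for' _ _) (for'_left (down_meets _) (t_comp h0 hq20 hx' hy' ha' hb h))
  · subst h
    exact for'_left (down_fground _) (t_uniq h0 hq20 hx' hy' ha' hb)
  · exact for'_right (down_for' _ _) (for'_right (down_meets _) (t_comp h0 hq20 hy' hx' hb ha' h))

theorem exists_branch (hκ : ℵ₀ ≤ κ) (hG : GMP κ) (hC : Centered κ P)
    (h0 : p0 ∈ IsTree (Wt κ) R ℓ) : ∃ r ≤ p0, ∃ B : L → Set P, r ∈ IsCofinalBranch R ℓ B := by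
  classical
  obtain ⟨D, hD1, hD2⟩ := hC
  obtain ⟨π, el, hel1, hel2⟩ := exists_nodes hκ hD1 hD2 h0
  have hT : TData (fun x => (π x).1) (ltd R ℓ p0 D π el) := tdata hD2 h0
  obtain ⟨U, hU, η, href⟩ := reflect hκ hG π (ltd R ℓ p0 D π el) hT
  obtain ⟨η₁, hη₁⟩ := separate hκ π U hU
  let Pr : Kt κ → Set (Lt κ) → Lt κ → Prop := fun ν e t =>
    Phi (fun x => (π x).1) (ltd R ℓ p0 D π el) U η t ∧
    Nc (fun x => (π x).1) (ltd R ℓ p0 D π el) ν t ∧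
    ∀ x, (π x).1 < (π t).1 → (x ∈ e ↔ ltd R ℓ p0 D π el ν x t)
  have hpig : ∃ ν, ∃ e ∈ U, ∀ β, ∃ t, β < (π t).1 ∧ Pr ν e t := by
    by_contra hcon
    push Not at hcon
    choose β hβ using hcon
    obtain ⟨βs, hβs⟩ := bdd_of_small hκ (Set.range fun q : Kt κ × U => β q.1 q.2.1 q.2.2) (by
      refine mk_range_le.trans ?_
      rw [mk_prod, Cardinal.lift_id, Cardinal.lift_id, mk_ord_toType]
      exact ((mul_le_mul' le_rfl hU).trans (mul_eq_self hκ).le).trans (Order.le_succ κ))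
    obtain ⟨t, ht, hPhi⟩ := href βs
    obtain ⟨p, hp, hpt⟩ := hel1 t
    obtain ⟨μ, hμ⟩ := exists_index (D := D) hD1 h0 hel2 hPhi.cof hp hpt
    have hNc : Nc (fun x => (π x).1) (ltd R ℓ p0 D π el) μ t := by
      intro α hα
      obtain ⟨x, q', hq', hq'p, hαx, hxt, hq'x, hq'r⟩ := hμ α hα
      exact ⟨x, ⟨hxt, q', hq', hq'p.trans hp, hq'x, meets_dn hpt hq'p, hq'r⟩, hαx⟩
    obtain ⟨e, he, _, _, hiff⟩ := hPhi.good μ hNc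
    exact hβ μ e he t ((hβs _ ⟨(μ, ⟨e, he⟩), rfl⟩).trans ht) ⟨hPhi, hNc, hiff⟩
  obtain ⟨ν, e, he, hpig⟩ := hpig
  obtain ⟨t0, ht0, hPr0⟩ := hpig η₁
  let X : Set (Lt κ) := {t | (π t0).1 ≤ (π t).1 ∧ Pr ν e t}
  have hA : ∀ t ∈ X, ∃ q ∈ D ν, q ≤ p0 ∧ FC R ℓ π el q t0 t := by
    intro t ht
    refine crucial hD1 hD2 h0 hPr0.1.eta_lt hPr0.1.cof ht.1 fun α hα => ?_
    obtain ⟨x, hx, hαx⟩ := hPr0.2.1 α hα
    exact ⟨x, hαx, hx, (ht.2.2.2 x (hx.1.trans_le ht.1)).1 ((hPr0.2.2 x hx.1).2 hx)⟩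
  have hCoh : ∀ t ∈ X, ∀ t' ∈ X, (π t).1 ≤ (π t').1 → ∀ q ≤ p0, FC R ℓ π el q t0 t →
      FC R ℓ π el q t0 t' → FC R ℓ π el q t t' := by
    intro t ht t' ht' hle q hq hqt hqt'
    refine FC.dense fun q1 hq1 => ?_
    obtain ⟨μ, hμ⟩ := exists_index (D := D) hD1 h0 hel2 hPr0.1.cof (hq1.trans hq) (hqt.1.dn hq1)
    have key : ∀ α < (π t0).1, ∃ x, ∃ q' ∈ D μ, q' ≤ q1 ∧ α < (π x).1 ∧ (π x).1 < (π t0).1 ∧
        ltd R ℓ p0 D π el μ x t ∧ ltd R ℓ p0 D π el μ x t' := by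
      intro α hα
      obtain ⟨x, q', hq', hq'1, hαx, hxt, hq'x, hq'r⟩ := hμ α hα
      have hq'q : q' ≤ q := hq'1.trans hq1
      exact ⟨x, q', hq', hq'1, hαx, hxt,
        ⟨hxt.trans_le ht.1, q', hq', hq'q.trans hq, hq'x, hqt.2.1.dn hq'q,
          hqt.2.2 _ q' hq'q hq'r⟩,
        ⟨hxt.trans_le ht'.1, q', hq', hq'q.trans hq, hq'x, hqt'.2.1.dn hq'q,
          hqt'.2.2 _ q' hq'q hq'r⟩⟩
    obtain ⟨x1, q', hq', hq'1, hηx, hx1, hx1t, hx1t'⟩ := key η hPr0.1.eta_lt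
    have hNt : Nc (fun x => (π x).1) (ltd R ℓ p0 D π el) μ t := by
      by_contra hn
      exact ht.2.1.bad μ hn x1 hx1t hηx
    have hNt' : Nc (fun x => (π x).1) (ltd R ℓ p0 D π el) μ t' := by
      by_contra hn
      exact ht'.2.1.bad μ hn x1 hx1t' hηx
    obtain ⟨e1, he1, hch1, hdn1, hiff1⟩ := ht.2.1.good μ hNt
    obtain ⟨e2, he2, hch2, hdn2, hiff2⟩ := ht'.2.1.good μ hNt'
    have hee : e1 = e2 := by
      refine hη₁ e1 he1 e2 he2 fun y hy => ?_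
      obtain ⟨x, _, _, _, hyx, hxt0, hxt, hxt'⟩ := key (π y).1 (hy.trans ht0)
      constructor
      · intro hye
        have h1 : ltd R ℓ p0 D π el μ y x := hch1 y hye x ((hiff1 x hxt.1).2 hxt) hyx
        exact hdn2 x ((hiff2 x hxt'.1).2 hxt') y h1
      · intro hye
        have h1 : ltd R ℓ p0 D π el μ y x := hch2 y hye x ((hiff2 x hxt'.1).2 hxt') hyx
        exact hdn1 x ((hiff1 x hxt.1).2 hxt) y h1
    obtain ⟨q2, hq2, _, hq2F⟩ := crucial hD1 hD2 h0 ht.2.1.eta_lt ht.2.1.cof hle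
      (ν := μ) fun α hα => by
        obtain ⟨x, hx, hαx⟩ := hNt α hα
        refine ⟨x, hαx, hx, ?_⟩
        have h1 : x ∈ e1 := (hiff1 x hx.1).2 hx
        rw [hee] at h1
        exact (hiff2 x (hx.1.trans_le hle)).1 h1
    obtain ⟨r, _, hr1, hr2⟩ := hD2 μ q' hq' q2 hq2
    exact ⟨r, hr1.trans hq'1, hq2F.dn hr2⟩
  have hB : ∃ r ≤ p0, ∀ β, ∀ r' ≤ r, ∃ q ≤ r', ∃ t ∈ X, β < (π t).1 ∧ FC R ℓ π el q t0 t := by
    by_contra hcon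
    push Not at hcon
    have h1 : ∀ μ, ∃ β, (∃ r ∈ D μ, ∃ β, ∀ q ≤ r, ∀ t ∈ X, β < (π t).1 → ¬ FC R ℓ π el q t0 t) →
        ∃ r ∈ D μ, ∀ q ≤ r, ∀ t ∈ X, β < (π t).1 → ¬ FC R ℓ π el q t0 t := by
      intro μ
      by_cases h : ∃ r ∈ D μ, ∃ β, ∀ q ≤ r, ∀ t ∈ X, β < (π t).1 → ¬ FC R ℓ π el q t0 t
      · obtain ⟨r, hr, β, h⟩ := h
        exact ⟨β, fun _ => ⟨r, hr, h⟩⟩
      · exact ⟨η, fun h' => absurd h' h⟩
    choose β hβ using h1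
    obtain ⟨βs, hβs⟩ := bdd_of_small hκ (Set.range β)
      ((mk_range_le.trans (mk_ord_toType κ).le).trans (Order.le_succ κ))
    obtain ⟨t, ht, hPr⟩ := hpig (max βs (π t0).1)
    have htX : t ∈ X := ⟨((le_max_right _ _).trans_lt ht).le, hPr⟩
    obtain ⟨q, _, hq0, hqF⟩ := hA t htX
    obtain ⟨β', r', hr', hno⟩ := hcon q hq0
    obtain ⟨μ, hμ⟩ := hD1 r'
    obtain ⟨r'', hr'', hno'⟩ := hβ μ ⟨r', hμ, β', hno⟩
    obtain ⟨s, _, hs1, hs2⟩ := hD2 μ r' hμ r'' hr''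
    exact hno' s hs2 t htX ((hβs _ ⟨μ, rfl⟩).trans ((le_max_left _ _).trans_lt ht))
      (hqF.dn (hs1.trans hr'))
  obtain ⟨r, hr, hB⟩ := hB
  let B : L → Set P := fun x => {p | ∃ t ∈ X, FC R ℓ π el p t0 t ∧ p ∈ meets (R x (el t))}
  have hBd : ∀ x, Down (B x) := by
    rintro x p ⟨t, ht, h1, h2⟩ q hq
    exact ⟨t, ht, h1.dn hq, meets_dn h2 hq⟩
  refine ⟨r, hr, B, ?_, ?_⟩
  · intro x y
    refine mem_fimp.2 fun q hq h => ?_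
    obtain ⟨q1, hq1, h1⟩ := exists_of_meets (hBd x) h.1
    obtain ⟨q2, hq2, h2⟩ := exists_of_meets (hBd y) (meets_dn h.2 hq1)
    obtain ⟨t, ht, hF, hx⟩ := hBd x q1 h1 q2 hq2
    obtain ⟨t', ht', hF', hy⟩ := h2
    have hq20 : q2 ≤ p0 := (hq2.trans hq1).trans (hq.trans hr)
    have h3 : ∃ w, q2 ∈ meets (R x w) ∧ q2 ∈ meets (R y w) := by
      rcases le_total (π t).1 (π t').1 with hle | hle
      · exact ⟨_, (hCoh t ht t' ht' hle q2 hq20 hF hF').2.2 x q2 le_rfl hx, hy⟩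
      · exact ⟨_, hx, (hCoh t' ht' t ht hle q2 hq20 hF' hF).2.2 y q2 le_rfl hy⟩
    obtain ⟨w, hxw, hyw⟩ := h3
    obtain ⟨q3, hq3, h4⟩ := comparable h0 hq20 hxw hyw
    exact ⟨q3, hq3.trans (hq2.trans hq1), h4⟩
  · intro a
    refine mem_fex.2 fun q hq => ?_
    obtain ⟨q1, hq1, t, ht, hat, hF⟩ := hB a q hq
    have hq10 : q1 ≤ p0 := hq1.trans (hq.trans hr)
    obtain ⟨q2, hq2, x, hx, hxa⟩ := t_pred h0 hq10 hF.2.1 hat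
    exact ⟨q2, hq2.trans hq1, x, meets_of_mem ⟨t, ht, hF.dn hq2, hx⟩, hxa⟩

theorem down_IsCofinalBranch (B : L → Set P) : Down (IsCofinalBranch R ℓ B) :=
  down_fand (down_fall fun _ => down_fall fun _ => down_fimp _ _) (down_fall fun _ => down_fex _)

end main

theorem treeProp {κ : Cardinal.{0}} (hκ : ℵ₀ ≤ κ) (hG : GMP κ) (P : Type) [Preorder P]
    (hC : Centered κ P) (p : P) : p ∈ TreeProp P (Lt κ) (Wt κ) := by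
  intro L R ℓ
  refine mem_fimp.2 fun q _ hq => ?_
  obtain ⟨r, hr, B, hB⟩ := exists_branch hκ hG hC hq
  exact ⟨r, hr, mem_fex_of_mem B (down_IsCofinalBranch B) hB⟩

end Pool.Agent.W873.Gmp
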